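import Mathlib

set_option autoImplicit false

namespace Pool.Agent.H96Chowla

open Finset Filter Topology

/-- `(n+1)^k ≤ A * 2^n` for some constant `A`. -/
lemma exists_pow_le (k : ℕ) : ∃ A : ℕ, 1 ≤ A ∧ ∀ n : ℕ, (n + 1) ^ k ≤ A * 2 ^ n := by
  have h := tendsto_pow_const_div_const_pow_of_one_lt k (r := 2) (by norm_num)
  obtain ⟨B, hB⟩ := h.bddAbove_range
  obtain ⟨A, hA⟩ := exists_nat_ge (max B 1 * 2)
  have hA1 : (1 : ℝ) ≤ A := by
    have : (1 : ℝ) ≤ max B 1 := le_max_right _ _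
    linarith
  refine ⟨A, by exact_mod_cast hA1, fun n => ?_⟩
  have h1 : ((n + 1 : ℕ) : ℝ) ^ k / 2 ^ (n + 1) ≤ B := hB ⟨n + 1, rfl⟩
  rw [div_le_iff₀ (by positivity)] at h1
  have h2 : ((n + 1 : ℕ) : ℝ) ^ k ≤ A * 2 ^ n := by
    calc ((n + 1 : ℕ) : ℝ) ^ k ≤ B * 2 ^ (n + 1) := h1
      _ ≤ max B 1 * 2 ^ (n + 1) := by gcongr; exact le_max_left _ _
      _ = (max B 1 * 2) * 2 ^ n := by ring
      _ ≤ A * 2 ^ n := by gcongr
  exact_mod_cast h2

lemma divisors_pow_le_aux (k A : ℕ) (hA : ∀ n : ℕ, (n + 1) ^ k ≤ A * 2 ^ n) :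
    ∀ m : ℕ, m ≠ 0 →
      (#m.divisors) ^ k ≤ A ^ (#(m.primeFactors.filter (· < 2 ^ k))) * m := by
  intro m
  induction m using Nat.recOnPosPrimePosCoprime with
  | prime_pow p n hp hn =>
    intro _
    have hcard : #(p ^ n).divisors = n + 1 := by
      rw [Nat.divisors_prime_pow hp]; simp
    rw [hcard, Nat.primeFactors_prime_pow hn.ne' hp]
    by_cases hpk : p < 2 ^ k
    · have : ({p} : Finset ℕ).filter (· < 2 ^ k) = {p} := by
        ext x; simp; rintro rfl; exact hpk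
      rw [this, card_singleton, pow_one]
      calc (n + 1) ^ k ≤ A * 2 ^ n := hA n
        _ ≤ A * p ^ n := by gcongr; exact hp.two_le
    · have : ({p} : Finset ℕ).filter (· < 2 ^ k) = ∅ := by
        ext x; simp; rintro rfl; simpa using hpk
      rw [this, card_empty, pow_zero, one_mul]
      calc (n + 1) ^ k ≤ (2 ^ n) ^ k := by
            gcongr
            exact Nat.lt_two_pow_self
        _ = (2 ^ k) ^ n := by rw [← pow_mul, ← pow_mul, mul_comm]
        _ ≤ p ^ n := by gcongr; simpa using hpk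
  | zero => intro h; exact absurd rfl h
  | one =>
    intro _
    simp
  | coprime a b ha hb hab iha ihb =>
    intro _
    have ha0 : a ≠ 0 := by omega
    have hb0 : b ≠ 0 := by omega
    rw [hab.card_divisors_mul, mul_pow, Nat.primeFactors_mul ha0 hb0, filter_union,
      card_union_of_disjoint (disjoint_filter_filter hab.disjoint_primeFactors), pow_add]
    calc (#a.divisors) ^ k * (#b.divisors) ^ k
        ≤ (A ^ (#(a.primeFactors.filter (· < 2 ^ k))) * a) *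
          (A ^ (#(b.primeFactors.filter (· < 2 ^ k))) * b) :=
          Nat.mul_le_mul (iha ha0) (ihb hb0)
      _ = _ := by ring

/-- Divisor bound: `d(m)^k ≤ C * m`. -/
lemma divisors_pow_le (k : ℕ) : ∃ C : ℕ, 1 ≤ C ∧ ∀ m : ℕ, m ≠ 0 → (#m.divisors) ^ k ≤ C * m := by
  obtain ⟨A, hA1, hA⟩ := exists_pow_le k
  refine ⟨A ^ (2 ^ k), Nat.one_le_pow _ _ hA1, fun m hm => ?_⟩
  refine (divisors_pow_le_aux k A hA m hm).trans ?_
  have hcard : #(m.primeFactors.filter (· < 2 ^ k)) ≤ 2 ^ k := by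
    calc #(m.primeFactors.filter (· < 2 ^ k)) ≤ #(range (2 ^ k)) := by
          apply card_le_card
          intro x hx
          simp only [mem_filter] at hx
          simpa using hx.2
      _ = 2 ^ k := card_range _
  gcongr

/-- Divisor bound in real form: for each `η > 0` there is `C` with `d(m) ≤ C m^η`. -/
lemma divisors_le_rpow (η : ℝ) (hη : 0 < η) :
    ∃ C : ℝ, 1 ≤ C ∧ ∀ m : ℕ, m ≠ 0 → (#m.divisors : ℝ) ≤ C * (m : ℝ) ^ η := by
  obtain ⟨k, hk⟩ := exists_nat_ge (1 / η)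
  have hkpos : (0 : ℝ) < k := lt_of_lt_of_le (by positivity) hk
  have hk0 : k ≠ 0 := by rintro rfl; simp at hkpos
  obtain ⟨C, hC1, hC⟩ := divisors_pow_le k
  have hC1' : (1 : ℝ) ≤ C := by exact_mod_cast hC1
  refine ⟨C, hC1', fun m hm => ?_⟩
  have h1 : ((#m.divisors : ℝ)) ^ k ≤ C * m := by exact_mod_cast hC m hm
  have hm1 : (1 : ℝ) ≤ m := by exact_mod_cast Nat.one_le_iff_ne_zero.mpr hm
  have h2 : (#m.divisors : ℝ) ≤ (C * m) ^ ((1 : ℝ) / k) := by
    rw [one_div]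
    calc (#m.divisors : ℝ) = (((#m.divisors : ℝ)) ^ k) ^ ((k : ℝ)⁻¹) := by
          rw [Real.pow_rpow_inv_natCast (by positivity) hk0]
      _ ≤ _ := by
          apply Real.rpow_le_rpow (by positivity) h1 (by positivity)
  have hkη : (1 : ℝ) / k ≤ η := by
    rw [div_le_iff₀ hkpos]
    rw [div_le_iff₀ hη] at hk
    linarith
  have hk1 : (1 : ℝ) / k ≤ 1 := by
    rw [div_le_iff₀ hkpos]
    have : (1 : ℝ) ≤ k := by exact_mod_cast Nat.one_le_iff_ne_zero.mpr hk0
    linarith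
  calc (#m.divisors : ℝ) ≤ (C * m) ^ ((1 : ℝ) / k) := h2
    _ = (C : ℝ) ^ ((1 : ℝ) / k) * (m : ℝ) ^ ((1 : ℝ) / k) := by
        rw [Real.mul_rpow (by positivity) (by positivity)]
    _ ≤ (C : ℝ) ^ (1 : ℝ) * (m : ℝ) ^ η := by
        gcongr
    _ = C * (m : ℝ) ^ η := by rw [Real.rpow_one]

end Pool.Agent.H96Chowla
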