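import Mathlib

set_option autoImplicit false

namespace Pool.Agent.H96Chowla

open Finset

/-- The Liouville function on the integers, with `lam (-m) = lam m` and `lam 0 = 0`. -/
def lam (m : ℤ) : ℤ :=
  if m = 0 then 0 else (-1) ^ (ArithmeticFunction.cardFactors m.natAbs)

lemma lam_zero : lam 0 = 0 := by simp [lam]

lemma lam_ne_zero {m : ℤ} (hm : m ≠ 0) : lam m ≠ 0 := by
  simp [lam, hm]

lemma lam_mul (m n : ℤ) : lam (m * n) = lam m * lam n := by
  by_cases hm : m = 0
  · simp [lam, hm]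
  by_cases hn : n = 0
  · simp [lam, hn]
  have hmn : m * n ≠ 0 := mul_ne_zero hm hn
  rw [lam, lam, lam, if_neg hm, if_neg hn, if_neg hmn, Int.natAbs_mul,
    ArithmeticFunction.cardFactors_mul (by simpa using hm) (by simpa using hn), pow_add]

lemma lam_cases {m : ℤ} (hm : m ≠ 0) : lam m = 1 ∨ lam m = -1 := by
  rw [lam, if_neg hm]
  exact neg_one_pow_eq_or ℤ _

lemma lam_mul_self {m : ℤ} (hm : m ≠ 0) : lam m * lam m = 1 := by
  rcases lam_cases hm with h | h <;> simp [h]

lemma lam_sq {m : ℤ} (hm : m ≠ 0) : lam (m ^ 2) = 1 := by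
  rw [sq, lam_mul, lam_mul_self hm]

lemma lam_neg (m : ℤ) : lam (-m) = lam m := by
  simp [lam]

lemma lam_prime {p : ℕ} (hp : p.Prime) : lam (p : ℤ) = -1 := by
  have : (p : ℤ) ≠ 0 := by exact_mod_cast hp.ne_zero
  rw [lam, if_neg this, Int.natAbs_natCast, ArithmeticFunction.cardFactors_apply_prime hp]
  norm_num

lemma lam_abs_le (m : ℤ) : |lam m| ≤ 1 := by
  by_cases hm : m = 0
  · simp [hm, lam_zero]
  · rcases lam_cases hm with h | h <;> simp [h]

end Pool.Agent.H96Chowla
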