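import Mathlib
import Pool.Agent.Lib_helper96.Chowla.Minus

set_option autoImplicit false

namespace Pool.Agent.H96Chowla

open Finset

/-- Elements close to the positive real axis at which the norm form has an odd number of prime
factors. -/
lemma near_minus {b c : ℤ} (hD : b ^ 2 - 4 * c ≠ 0) (K : ℕ) :
    ∃ x y : ℤ, 0 < x ∧ 0 < y ∧ K * y ≤ x ∧ lam (x ^ 2 + b * x * y + c * y ^ 2) = -1 := by
  obtain ⟨X', Y', hpos', hlam'⟩ := exists_minus hD
  set D := b ^ 2 - 4 * c with hDdef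
  -- pass to nonnegative X, positive Y
  set X : ℤ := |X'| with hX
  set Y : ℤ := |Y'| with hY
  have hX2 : X ^ 2 = X' ^ 2 := sq_abs X'
  have hY2 : Y ^ 2 = Y' ^ 2 := sq_abs Y'
  have hX0 : 0 ≤ X := abs_nonneg _
  set M : ℤ := X ^ 2 - D * Y ^ 2 with hM
  have hMpos : 0 < M := by rw [hM, hX2, hY2]; exact hpos'
  have hMlam : lam M = -1 := by rw [hM, hX2, hY2]; exact hlam'
  have hYpos : 0 < Y := by
    rcases (abs_nonneg Y').eq_or_lt with h | h
    · exfalso
      have h0 : Y = 0 := by rw [hY, ← h]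
      have hXne : X ≠ 0 := by
        rintro h1
        rw [hM, h0, h1] at hMpos
        simp at hMpos
      have : lam M = 1 := by
        rw [hM, h0]
        simpa using lam_sq hXne
      rw [this] at hMlam
      norm_num at hMlam
    · exact h
  set n : ℤ := (2 * K + |b|) * Y + 1 with hn
  have hn1 : 1 ≤ n := by
    have : 0 ≤ (2 * K + |b|) * Y := by positivity
    linarith
  obtain ⟨s, hs⟩ : ∃ s : ℕ, (s : ℤ) = M * n ^ 2 := by
    refine ⟨(M * n ^ 2).toNat, Int.toNat_of_nonneg (by positivity)⟩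
  set j : ℤ := (Nat.sqrt s : ℤ) + 1 with hj
  have hj1 : 1 ≤ j := by rw [hj]; linarith [Int.natCast_nonneg (Nat.sqrt s)]
  have hjl : (j - 1) ^ 2 ≤ M * n ^ 2 := by
    rw [hj, ← hs]
    have := Nat.sqrt_le' s
    zify at this
    simpa using this
  have hju : M * n ^ 2 < j ^ 2 := by
    rw [hj, ← hs]
    have := Nat.lt_succ_sqrt' s
    zify at this
    exact this
  refine ⟨n ^ 2 * M * (2 * X) + 2 * n * j * M + (j ^ 2 - M * n ^ 2) * (X - b * Y),
    (j ^ 2 - M * n ^ 2) * (2 * Y), ?_, ?_, ?_, ?_⟩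
  all_goals
    have hd0 : 0 < j ^ 2 - M * n ^ 2 := by linarith
    have hd1 : j ^ 2 - M * n ^ 2 ≤ 2 * j := by
      have e1 : (j - 1) ^ 2 = j ^ 2 - 2 * j + 1 := by ring
      linarith
    have hM1 : 1 ≤ M := hMpos
    have hbY : -((j ^ 2 - M * n ^ 2) * (b * Y)) ≥ -(2 * j * (|b| * Y)) := by
      have h1 : b * Y ≤ |b| * Y := mul_le_mul_of_nonneg_right (le_abs_self b) hYpos.le
      have h2 : (j ^ 2 - M * n ^ 2) * (b * Y) ≤ (j ^ 2 - M * n ^ 2) * (|b| * Y) :=
        mul_le_mul_of_nonneg_left h1 hd0.le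
      have h3 : (j ^ 2 - M * n ^ 2) * (|b| * Y) ≤ 2 * j * (|b| * Y) :=
        mul_le_mul_of_nonneg_right hd1 (by positivity)
      linarith
    have hnM : n ≤ n * M := le_mul_of_one_le_right (by linarith) hM1
    have hXpart : 0 ≤ n ^ 2 * M * (2 * X) + (j ^ 2 - M * n ^ 2) * X := by
      have : 0 ≤ (j ^ 2 - M * n ^ 2) * X := mul_nonneg hd0.le hX0
      positivity
    have hxlow : 2 * j * (2 * K * Y + 1) ≤
        n ^ 2 * M * (2 * X) + 2 * n * j * M + (j ^ 2 - M * n ^ 2) * (X - b * Y) := by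
      have h1 : 2 * j * n ≤ 2 * j * (n * M) := mul_le_mul_of_nonneg_left hnM (by linarith)
      have h2 : 2 * j * n = 2 * j * (2 * K * Y + 1) + 2 * j * (|b| * Y) := by rw [hn]; ring
      have e : n ^ 2 * M * (2 * X) + 2 * n * j * M + (j ^ 2 - M * n ^ 2) * (X - b * Y) =
        (n ^ 2 * M * (2 * X) + (j ^ 2 - M * n ^ 2) * X) + 2 * j * (n * M) +
          -((j ^ 2 - M * n ^ 2) * (b * Y)) := by ring
      rw [e]
      linarith
  · have : 0 < 2 * j * (2 * K * Y + 1) := by positivity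
    linarith
  · positivity
  · refine le_trans ?_ hxlow
    have h1 : (j ^ 2 - M * n ^ 2) * (2 * (K * Y)) ≤ 2 * j * (2 * (K * Y)) :=
      mul_le_mul_of_nonneg_right hd1 (by positivity)
    have h2 : (K : ℤ) * ((j ^ 2 - M * n ^ 2) * (2 * Y)) = (j ^ 2 - M * n ^ 2) * (2 * (K * Y)) := by
      ring
    have h3 : 2 * j * (2 * K * Y + 1) = 2 * j * (2 * (K * Y)) + 2 * j := by ring
    rw [h2, h3]
    linarith
  · have key : (n ^ 2 * M * (2 * X) + 2 * n * j * M + (j ^ 2 - M * n ^ 2) * (X - b * Y)) ^ 2 +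
        b * (n ^ 2 * M * (2 * X) + 2 * n * j * M + (j ^ 2 - M * n ^ 2) * (X - b * Y)) *
          ((j ^ 2 - M * n ^ 2) * (2 * Y)) + c * ((j ^ 2 - M * n ^ 2) * (2 * Y)) ^ 2 =
        M * (n ^ 2 * M + n * j * (2 * X) + j ^ 2) ^ 2 := by
      have hc : 4 * c = b ^ 2 - D := by rw [hDdef]; ring
      have hMM : D * Y ^ 2 = X ^ 2 - M := by rw [hM]; ring
      linear_combination ((j ^ 2 - M * n ^ 2) * Y) ^ 2 * hc - ((j ^ 2 - M * n ^ 2)) ^ 2 * hMM
    rw [key, lam_mul, hMlam]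
    have hne : n ^ 2 * M + n * j * (2 * X) + j ^ 2 ≠ 0 := by positivity
    rw [lam_sq hne]; norm_num

end Pool.Agent.H96Chowla
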