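import Mathlib

set_option autoImplicit false

namespace Pool.Agent.H96Chowla

/-- Farey descent: if `g` is invariant under positive scaling and takes different values at `p`
and `q` with `det(p,q) = d > 0` and `p` primitive, then it takes different values at the two ends
of a unimodular edge lying between `p` and `q`. -/
lemma farey {α : Type*} (g : ℤ → ℤ → α)
    (hg : ∀ d x y : ℤ, 0 < d → g (d * x) (d * y) = g x y) :
    ∀ (n : ℕ) (p1 p2 q1 q2 : ℤ), p1 * q2 - p2 * q1 = n → 0 < n → IsCoprime p1 p2 →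
      g p1 p2 ≠ g q1 q2 →
      ∃ u1 u2 v1 v2 : ℤ, u1 * v2 - u2 * v1 = 1 ∧ g u1 u2 ≠ g v1 v2 ∧
        ∀ l1 l2 M : ℤ, 0 ≤ l1 * p1 + l2 * p2 → 0 ≤ l1 * q1 + l2 * q2 →
          l1 * p1 + l2 * p2 ≤ M → l1 * q1 + l2 * q2 ≤ M →
          (0 ≤ l1 * u1 + l2 * u2 ∧ l1 * u1 + l2 * u2 ≤ M) ∧
          (0 ≤ l1 * v1 + l2 * v2 ∧ l1 * v1 + l2 * v2 ≤ M) := by
  intro n
  induction n using Nat.strong_induction_on with
  | _ n ih =>
    intro p1 p2 q1 q2 hdet hn hcop hne
    obtain ⟨s, t, hst⟩ := hcop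
    -- `s * p1 + t * p2 = 1`; base vector `(-t, s)` has `det (p, (-t, s)) = 1`
    have hn0 : (n : ℤ) ≠ 0 := by exact_mod_cast hn.ne'
    have hnpos : (0 : ℤ) < n := by exact_mod_cast hn
    -- alpha
    set al : ℤ := q1 * s + q2 * t with hal
    have hq1 : q1 = al * p1 + n * (-t) := by
      rw [hal, ← hdet]
      linear_combination (-q1) * hst
    have hq2 : q2 = al * p2 + n * s := by
      rw [hal, ← hdet]
      linear_combination (-q2) * hst
    set e : ℤ := (-al) % n with he
    have he0 : 0 ≤ e := Int.emod_nonneg _ hn0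
    have hen : e < n := Int.emod_lt_of_pos _ hnpos
    set k : ℤ := -((-al) / n) with hk
    have hke : e = k * n - al := by
      have := Int.emod_add_mul_ediv (-al) n
      rw [he, hk]; linarith
    set r1 : ℤ := -t + k * p1 with hr1
    set r2 : ℤ := s + k * p2 with hr2
    have hn1 : (n : ℤ) * r1 = q1 + e * p1 := by
      rw [hr1, hke, hq1]; ring
    have hn2 : (n : ℤ) * r2 = q2 + e * p2 := by
      rw [hr2, hke, hq2]; ring
    have hdpr : p1 * r2 - p2 * r1 = 1 := by
      rw [hr1, hr2]; linear_combination hst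
    have hdrq : r1 * q2 - r2 * q1 = e := by
      rw [hr1, hr2, hke, hq1, hq2]
      linear_combination (k * n - al) * hst
    -- bounds for `r`
    have hbd : ∀ l1 l2 M : ℤ, 0 ≤ l1 * p1 + l2 * p2 → 0 ≤ l1 * q1 + l2 * q2 →
          l1 * p1 + l2 * p2 ≤ M → l1 * q1 + l2 * q2 ≤ M →
          0 ≤ l1 * r1 + l2 * r2 ∧ l1 * r1 + l2 * r2 ≤ M := by
      intro l1 l2 M h1 h2 h3 h4
      have hL : (n : ℤ) * (l1 * r1 + l2 * r2) = (l1 * q1 + l2 * q2) + e * (l1 * p1 + l2 * p2) := by
        linear_combination l1 * hn1 + l2 * hn2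
      constructor
      · have : 0 ≤ (n : ℤ) * (l1 * r1 + l2 * r2) := by
          rw [hL]; positivity
        exact nonneg_of_mul_nonneg_right this hnpos
      · have : (n : ℤ) * (l1 * r1 + l2 * r2) ≤ n * M := by
          rw [hL]
          have hM : 0 ≤ M := h1.trans h3
          have : e * (l1 * p1 + l2 * p2) ≤ (n - 1) * M :=
            mul_le_mul (by linarith) h3 h1 (by linarith)
          linarith
        exact le_of_mul_le_mul_left this hnpos
    by_cases hpr : g p1 p2 = g r1 r2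
    · -- recurse on `(r, q)`
      have hrq : g r1 r2 ≠ g q1 q2 := by rw [← hpr]; exact hne
      rcases he0.eq_or_lt with he0' | hepos
      · exfalso
        apply hrq
        rw [← he0'] at hn1 hn2
        have h1 : q1 = n * r1 := by linarith
        have h2 : q2 = n * r2 := by linarith
        rw [h1, h2, hg _ _ _ hnpos]
      · obtain ⟨m, hm⟩ := Int.eq_ofNat_of_zero_le he0
        have hmn : m < n := by
          have : (m : ℤ) < n := by linarith
          exact_mod_cast this
        have hm0 : 0 < m := by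
          have : (0 : ℤ) < m := by linarith
          exact_mod_cast this
        have hcop' : IsCoprime r1 r2 := ⟨-p2, p1, by linarith⟩
        obtain ⟨u1, u2, v1, v2, h1, h2, h3⟩ :=
          ih m hmn r1 r2 q1 q2 (by rw [hdrq, hm]) hm0 hcop' hrq
        refine ⟨u1, u2, v1, v2, h1, h2, ?_⟩
        intro l1 l2 M g1 g2 g3 g4
        obtain ⟨b1, b2⟩ := hbd l1 l2 M g1 g2 g3 g4
        exact h3 l1 l2 M b1 g2 b2 g4
    · refine ⟨p1, p2, r1, r2, hdpr, hpr, ?_⟩
      intro l1 l2 M g1 g2 g3 g4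
      exact ⟨⟨g1, g3⟩, hbd l1 l2 M g1 g2 g3 g4⟩

end Pool.Agent.H96Chowla
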