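import Mathlib
import Pool.Agent.Lib_helper96.Chowla.Basic
import Pool.Agent.Lib_helper96.Chowla.Farey

set_option autoImplicit false

namespace Pool.Agent.H96Chowla

open Finset

/-- `lam` of the form `x² + b x y + c y²`. -/
def gs (b c x y : ℤ) : ℤ := lam (x ^ 2 + b * x * y + c * y ^ 2)

lemma gs_scale (b c : ℤ) (d x y : ℤ) (hd : 0 < d) : gs b c (d * x) (d * y) = gs b c x y := by
  unfold gs
  have h : (d * x) ^ 2 + b * (d * x) * (d * y) + c * (d * y) ^ 2 =
      d ^ 2 * (x ^ 2 + b * x * y + c * y ^ 2) := by ring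
  rw [h, lam_mul, lam_sq hd.ne', one_mul]

lemma form_pos {b c x y : ℤ} (hb : 0 ≤ b) (hc : 2 ≤ c) (hx : 0 < x) (hy : 0 ≤ y) :
    0 < x ^ 2 + b * x * y + c * y ^ 2 := by
  have h1 : 0 < x ^ 2 := by positivity
  have h2 : 0 ≤ b * x * y := by positivity
  have h3 : 0 ≤ c * y ^ 2 := by positivity
  linarith

lemma gs_mul_self {b c x y : ℤ} (hb : 0 ≤ b) (hc : 2 ≤ c) (hx : 0 < x) (hy : 0 ≤ y) :
    gs b c x y * gs b c x y = 1 := lam_mul_self (form_pos hb hc hx hy).ne'

lemma gs_cases {b c x y : ℤ} (hb : 0 ≤ b) (hc : 2 ≤ c) (hx : 0 < x) (hy : 0 ≤ y) :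
    gs b c x y = 1 ∨ gs b c x y = -1 := lam_cases (form_pos hb hc hx hy).ne'

/-- The key identity on unimodular pairs. -/
lemma form_edge (b c x y z w : ℤ) (hdet : x * w - y * z = 1) :
    (x ^ 2 + b * x * y + c * y ^ 2) * (z ^ 2 + b * z * w + c * w ^ 2) =
      (x * z + b * y * z + c * y * w) ^ 2 + b * (x * z + b * y * z + c * y * w) + c := by
  linear_combination (b * (x * z + b * y * z + c * y * w) + c * (x * w - y * z + 1)) * hdet

lemma gs_edge (b c x y z w : ℤ) (hdet : x * w - y * z = 1) :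
    gs b c x y * gs b c z w =
      lam ((x * z + b * y * z + c * y * w) ^ 2 + b * (x * z + b * y * z + c * y * w) + c) := by
  unfold gs
  rw [← lam_mul, form_edge b c x y z w hdet]

lemma mul_lt_of_sq {A x y : ℤ} (hA : 0 < A) (hx : x ^ 2 ≤ A) (hy : 2 * y ^ 2 ≤ A)
    : x * y < A := by
  by_contra hcon
  push Not at hcon
  have h2 : A ^ 2 ≤ (x * y) ^ 2 := pow_le_pow_left₀ hA.le hcon 2
  have h3 : x ^ 2 * (2 * y ^ 2) ≤ A * A := mul_le_mul hx hy (by positivity) hA.le
  have h4 : 2 * (x * y) ^ 2 = x ^ 2 * (2 * y ^ 2) := by ring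
  have h5 : 0 < A ^ 2 := by positivity
  have h6 : A * A = A ^ 2 := by ring
  linarith

/-- Unimodular pairs in the quadrant are determined by the index `n` and the first norm. -/
lemma edge_inj {b c : ℤ} (hb : 0 ≤ b) (hc : 2 ≤ c) {x y z w x' y' z' w' : ℤ}
    (hx : 0 < x) (hy : 0 ≤ y) (hx' : 0 < x') (hy' : 0 ≤ y')
    (hdet : x * w - y * z = 1) (hdet' : x' * w' - y' * z' = 1)
    (hn : x * z + b * y * z + c * y * w = x' * z' + b * y' * z' + c * y' * w')
    (hA : x ^ 2 + b * x * y + c * y ^ 2 = x' ^ 2 + b * x' * y' + c * y' ^ 2) :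
    x = x' ∧ y = y' ∧ z = z' ∧ w = w' := by
  set n := x * z + b * y * z + c * y * w with hndef
  set A := x ^ 2 + b * x * y + c * y ^ 2 with hAdef
  have hApos : 0 < A := form_pos hb hc hx hy
  have hw : A * w = x + (n + b) * y := by
    rw [hAdef, hndef]; linear_combination (x + b * y) * hdet
  have hz : A * z = x * n - c * y := by
    rw [hAdef, hndef]; linear_combination (-(c * y)) * hdet
  have hw' : A * w' = x' + (n + b) * y' := by
    rw [hA, hn]; linear_combination (x' + b * y') * hdet'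
  have hz' : A * z' = x' * n - c * y' := by
    rw [hA, hn]; linear_combination (-(c * y')) * hdet'
  have key : A * (w * y' - w' * y) = x * y' - x' * y := by
    linear_combination y' * hw - y * hw'
  -- bounds
  have h1 : x * y' < A := by
    apply mul_lt_of_sq hApos
    · rw [hAdef]; have : 0 ≤ b * x * y := by positivity
      have : 0 ≤ c * y ^ 2 := by positivity
      linarith
    · rw [hA]; have : 0 ≤ b * x' * y' := by positivity
      have : 0 < x' ^ 2 := by positivity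
      have : 2 * y' ^ 2 ≤ c * y' ^ 2 := mul_le_mul_of_nonneg_right hc (sq_nonneg y')
      linarith
  have h2 : x' * y < A := by
    apply mul_lt_of_sq hApos
    · rw [hA]; have : 0 ≤ b * x' * y' := by positivity
      have : 0 ≤ c * y' ^ 2 := by positivity
      linarith
    · rw [hAdef]; have : 0 ≤ b * x * y := by positivity
      have : 0 < x ^ 2 := by positivity
      have : 2 * y ^ 2 ≤ c * y ^ 2 := mul_le_mul_of_nonneg_right hc (sq_nonneg y)
      linarith
  have h3 : 0 ≤ x * y' := by positivity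
  have h4 : 0 ≤ x' * y := by positivity
  have hzero : w * y' - w' * y = 0 := by
    have h5 : A * (w * y' - w' * y) < A * 1 := by rw [key]; linarith
    have h6 : A * (-1) < A * (w * y' - w' * y) := by rw [key]; linarith
    have h7 := lt_of_mul_lt_mul_left h5 hApos.le
    have h8 := lt_of_mul_lt_mul_left h6 hApos.le
    omega
  have hpar : x * y' = x' * y := by rw [hzero, mul_zero] at key; linarith
  have hcop : IsCoprime x y := ⟨w, -z, by linarith⟩
  have hcop' : IsCoprime x' y' := ⟨w', -z', by linarith⟩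
  have hd1 : x ∣ x' := hcop.dvd_of_dvd_mul_right ⟨y', hpar.symm⟩
  have hd2 : x' ∣ x := hcop'.dvd_of_dvd_mul_right ⟨y, hpar⟩
  have hxx : x = x' := Int.dvd_antisymm hx.le hx'.le hd1 hd2
  have hyy : y = y' := by
    rw [hxx] at hpar
    exact (mul_left_cancel₀ hx'.ne' hpar).symm
  refine ⟨hxx, hyy, ?_, ?_⟩
  · apply mul_left_cancel₀ hApos.ne'
    rw [hz, hz', hxx, hyy]
  · apply mul_left_cancel₀ hApos.ne'
    rw [hw, hw', hxx, hyy]

/-- Unimodular pairs with coordinates at most `R` whose ends have different sign. -/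
noncomputable def edges (b c : ℤ) (R : ℕ) : Finset (ℤ × ℤ × ℤ × ℤ) :=
  ((Icc (1 : ℤ) R) ×ˢ (Icc (0 : ℤ) R) ×ˢ (Icc (1 : ℤ) R) ×ˢ (Icc (0 : ℤ) R)).filter
    (fun e => e.1 * e.2.2.2 - e.2.1 * e.2.2.1 = 1 ∧
      gs b c e.1 e.2.1 ≠ gs b c e.2.2.1 e.2.2.2)

/-- The positive integers up to `N` at which `lam (n² + b n + c) = s`. -/
def signSet (b c : ℤ) (s : ℤ) (N : ℕ) : Finset ℕ :=
  (Icc 1 N).filter (fun n => lam ((n : ℤ) ^ 2 + b * n + c) = s)

lemma mem_edges {b c : ℤ} {R : ℕ} {x y z w : ℤ} :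
    (x, y, z, w) ∈ edges b c R ↔ (1 ≤ x ∧ x ≤ R) ∧ (0 ≤ y ∧ y ≤ R) ∧ (1 ≤ z ∧ z ≤ R) ∧
      (0 ≤ w ∧ w ≤ R) ∧ x * w - y * z = 1 ∧ gs b c x y ≠ gs b c z w := by
  simp only [edges, mem_filter, mem_product, mem_Icc]
  tauto

lemma card_edges_le {b c : ℤ} (hb : 0 ≤ b) (hc : 2 ≤ c) {R N : ℕ}
    (hN : (1 + b + c) * (R : ℤ) ^ 2 ≤ N) :
    #(edges b c R) ≤ ∑ n ∈ signSet b c (-1) N,
      #(((n : ℤ) ^ 2 + b * n + c).natAbs.divisors) := by
  rw [← card_sigma]
  let φ : ℤ × ℤ × ℤ × ℤ → (_ : ℕ) × ℕ := fun e =>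
    ⟨(e.1 * e.2.2.1 + b * e.2.1 * e.2.2.1 + c * e.2.1 * e.2.2.2).toNat,
      (e.1 ^ 2 + b * e.1 * e.2.1 + c * e.2.1 ^ 2).toNat⟩
  apply card_le_card_of_injOn φ
  · rintro ⟨x, y, z, w⟩ he
    rw [mem_coe, mem_edges] at he
    obtain ⟨⟨hx1, hx2⟩, ⟨hy1, hy2⟩, ⟨hz1, hz2⟩, ⟨hw1, hw2⟩, hdet, hne⟩ := he
    simp only [φ]
    set n := x * z + b * y * z + c * y * w with hn
    have hn1 : 1 ≤ n := by
      have h1 : 1 ≤ x * z := by nlinarith
      have h2 : 0 ≤ b * y * z := by positivity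
      have h3 : 0 ≤ c * y * w := by positivity
      linarith
    have hnN : n ≤ N := by
      have h1 : x * z ≤ R * R := by gcongr
      have h2 : b * y * z ≤ b * R * R := by gcongr
      have h3 : c * y * w ≤ c * R * R := by gcongr
      calc n ≤ R * R + b * R * R + c * R * R := by rw [hn]; linarith
        _ = (1 + b + c) * (R : ℤ) ^ 2 := by ring
        _ ≤ N := hN
    have hcast : ((n.toNat : ℕ) : ℤ) = n := Int.toNat_of_nonneg (by linarith)
    have hedge := form_edge b c x y z w hdet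
    rw [← hn] at hedge
    have hFu := form_pos hb hc (show 0 < x by linarith) hy1
    have hFv := form_pos hb hc (show 0 < z by linarith) hw1
    simp only [coe_sigma, Set.mem_sigma_iff, mem_coe, signSet, mem_filter, mem_Icc, hcast,
      Nat.mem_divisors]
    refine ⟨⟨⟨by omega, by omega⟩, ?_⟩, ?_, ?_⟩
    · have h1 := gs_edge b c x y z w hdet
      rw [← hn] at h1
      rw [← h1]
      rcases gs_cases hb hc (show 0 < x by linarith) hy1 with h2 | h2 <;>
      rcases gs_cases hb hc (show 0 < z by linarith) hw1 with h3 | h3 <;>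
      rw [h2, h3] at hne ⊢ <;> simp_all
    · rw [← hedge, ← Int.natCast_dvd_natCast, Int.dvd_natAbs, Int.toNat_of_nonneg hFu.le]
      exact dvd_mul_right _ _
    · rw [← hedge]
      rw [Int.natAbs_ne_zero]
      exact mul_ne_zero hFu.ne' hFv.ne'
  · rintro ⟨x, y, z, w⟩ he ⟨x', y', z', w'⟩ he' heq
    rw [mem_coe, mem_edges] at he he'
    obtain ⟨⟨hx1, hx2⟩, ⟨hy1, hy2⟩, ⟨hz1, hz2⟩, ⟨hw1, hw2⟩, hdet, hne⟩ := he
    obtain ⟨⟨hx1', hx2'⟩, ⟨hy1', hy2'⟩, ⟨hz1', hz2'⟩, ⟨hw1', hw2'⟩, hdet', hne'⟩ := he'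
    simp only [φ, Sigma.mk.injEq, heq_eq_eq] at heq
    obtain ⟨h1, h2⟩ := heq
    have hp1 : 0 ≤ x * z + b * y * z + c * y * w := by
      have : 0 ≤ x * z := by positivity
      have : 0 ≤ b * y * z := by positivity
      have : 0 ≤ c * y * w := by positivity
      linarith
    have hp1' : 0 ≤ x' * z' + b * y' * z' + c * y' * w' := by
      have : 0 ≤ x' * z' := by positivity
      have : 0 ≤ b * y' * z' := by positivity
      have : 0 ≤ c * y' * w' := by positivity
      linarith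
    have hFu := form_pos hb hc (show 0 < x by linarith) hy1
    have hFu' := form_pos hb hc (show 0 < x' by linarith) hy1'
    have hn : x * z + b * y * z + c * y * w = x' * z' + b * y' * z' + c * y' * w' := by omega
    have hA : x ^ 2 + b * x * y + c * y ^ 2 = x' ^ 2 + b * x' * y' + c * y' ^ 2 := by omega
    obtain ⟨e1, e2, e3, e4⟩ := edge_inj hb hc (by linarith) hy1 (by linarith) hy1' hdet hdet' hn hA
    rw [e1, e2, e3, e4]

/-- If no sign-changing edge starts in `[θ-δ, θ+δ]`, then all fractions of order at most `R` in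
this interval have the same sign. -/
lemma const_aux {b c : ℤ} {R : ℕ} {lo hi : ℝ}
    (hgood : ∀ x y z w : ℤ, (x, y, z, w) ∈ edges b c R → ¬ (lo ≤ (y : ℝ) / x ∧ (y : ℝ) / x ≤ hi))
    {x1 y1 x2 y2 : ℤ} (hx1 : 1 ≤ x1) (hx1R : x1 ≤ R) (hy1 : 0 ≤ y1) (hyx1 : y1 ≤ x1)
    (hx2 : 1 ≤ x2) (hx2R : x2 ≤ R) (hy2 : 0 ≤ y2) (hyx2 : y2 ≤ x2)
    (h1 : lo ≤ (y1 : ℝ) / x1) (h2 : (y2 : ℝ) / x2 ≤ hi)
    (hdet : 0 ≤ x1 * y2 - y1 * x2) : gs b c x1 y1 = gs b c x2 y2 := by
  by_contra hne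
  rcases hdet.eq_or_lt with hd0 | hdpos
  · apply hne
    have e1 : gs b c (x2 * x1) (x2 * y1) = gs b c x1 y1 := gs_scale b c x2 x1 y1 (by linarith)
    have e2 : gs b c (x1 * x2) (x1 * y2) = gs b c x2 y2 := gs_scale b c x1 x2 y2 (by linarith)
    rw [← e1, ← e2]
    congr 1
    · ring
    · linarith
  · -- reduce `(x1, y1)` to a primitive vector
    obtain ⟨p1, p2, hcop, hp1, hp2⟩ :
        ∃ p1 p2 : ℤ, IsCoprime p1 p2 ∧ x1 = (Int.gcd x1 y1 : ℤ) * p1 ∧
          y1 = (Int.gcd x1 y1 : ℤ) * p2 := by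
      have hg : Int.gcd x1 y1 ≠ 0 := by
        intro h
        rw [Int.gcd_eq_zero_iff] at h
        omega
      have hg' : 0 < Int.gcd x1 y1 := Nat.pos_of_ne_zero hg
      refine ⟨x1 / Int.gcd x1 y1, y1 / Int.gcd x1 y1, ?_, ?_, ?_⟩
      · exact Int.isCoprime_iff_gcd_eq_one.mpr (Int.gcd_div_gcd_div_gcd hg')
      · exact (Int.mul_ediv_cancel' (Int.gcd_dvd_left _ _)).symm
      · exact (Int.mul_ediv_cancel' (Int.gcd_dvd_right _ _)).symm
    set d : ℤ := (Int.gcd x1 y1 : ℤ) with hd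
    have hdnn : 0 ≤ d := by rw [hd]; positivity
    have hdpos' : 0 < d := by
      rcases hdnn.eq_or_lt with h | h
      · rw [← h] at hp1; linarith
      · exact h
    have hp1pos : 0 < p1 := by
      by_contra hcon
      push Not at hcon
      have : d * p1 ≤ 0 := mul_nonpos_of_nonneg_of_nonpos hdnn hcon
      linarith
    have hp2nn : 0 ≤ p2 := by
      by_contra hcon
      push Not at hcon
      have : d * p2 < 0 := mul_neg_of_pos_of_neg hdpos' hcon
      linarith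
    have hgp : gs b c p1 p2 = gs b c x1 y1 := by
      rw [hp1, hp2]; exact (gs_scale b c d p1 p2 hdpos').symm
    have hdetp : 0 < p1 * y2 - p2 * x2 := by
      have : d * (p1 * y2 - p2 * x2) = x1 * y2 - y1 * x2 := by
        linear_combination (-y2) * hp1 + x2 * hp2
      by_contra hcon
      push Not at hcon
      have : d * (p1 * y2 - p2 * x2) ≤ 0 := mul_nonpos_of_nonneg_of_nonpos hdnn hcon
      linarith
    have hp1le : p1 ≤ x1 := by rw [hp1]; nlinarith
    have hp21 : p2 ≤ p1 := by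
      have : d * p2 ≤ d * p1 := by rw [← hp1, ← hp2]; exact hyx1
      exact le_of_mul_le_mul_left this hdpos'
    obtain ⟨n, hn⟩ := Int.eq_ofNat_of_zero_le hdetp.le
    have hn' : p1 * y2 - p2 * x2 = (n : ℤ) := hn
    have hnpos : 0 < n := by
      have : (0 : ℤ) < n := by linarith
      exact_mod_cast this
    obtain ⟨u1, u2, v1, v2, hedet, hgne, hL⟩ :=
      farey (gs b c) (gs_scale b c) n p1 p2 x2 y2 hn' hnpos hcop (by rw [hgp]; exact hne)
    -- functionals
    have hLx := hL 1 0 R (by linarith) (by linarith) (by linarith) (by linarith)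
    have hLy := hL 0 1 R (by linarith) (by linarith) (by linarith) (by linarith)
    have hLxy := hL 1 (-1) R (by linarith) (by linarith) (by linarith) (by linarith)
    have hLp := hL (-p2) p1 (p1 * y2 - p2 * x2) (by linarith) (by linarith) (by linarith)
      (by linarith)
    have hLq := hL y2 (-x2) (p1 * y2 - p2 * x2) (by linarith) (by linarith) (by linarith)
      (by linarith)
    simp only [one_mul, zero_mul, zero_add, add_zero] at hLx hLy hLxy hLp hLq
    have hu1 : 1 ≤ u1 := by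
      by_contra hcon
      push Not at hcon
      have e1 : u1 = 0 := by omega
      have e2 : u2 = 0 := by omega
      rw [e1, e2] at hedet
      simp at hedet
    have hv1 : 1 ≤ v1 := by
      by_contra hcon
      push Not at hcon
      have e1 : v1 = 0 := by omega
      have e2 : v2 = 0 := by omega
      rw [e1, e2] at hedet
      simp at hedet
    have hmem : (u1, u2, v1, v2) ∈ edges b c R := by
      rw [mem_edges]
      exact ⟨⟨hu1, hLx.1.2⟩, ⟨hLy.1.1, hLy.1.2⟩, ⟨hv1, hLx.2.2⟩, ⟨hLy.2.1, hLy.2.2⟩, hedet, hgne⟩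
    apply hgood u1 u2 v1 v2 hmem
    have hu1R : (0 : ℝ) < u1 := by exact_mod_cast (by linarith : 0 < u1)
    have hp1R : (0 : ℝ) < p1 := by exact_mod_cast hp1pos
    have hx2R' : (0 : ℝ) < x2 := by exact_mod_cast (by linarith : 0 < x2)
    have hx1R' : (0 : ℝ) < x1 := by exact_mod_cast (by linarith : 0 < x1)
    constructor
    · have e1 : (y1 : ℝ) / x1 = (p2 : ℝ) / p1 := by
        rw [div_eq_div_iff hx1R'.ne' hp1R.ne']
        have : y1 * p1 = p2 * x1 := by
          linear_combination p1 * hp2 - p2 * hp1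
        exact_mod_cast this
      rw [e1] at h1
      refine h1.trans ?_
      rw [div_le_div_iff₀ hp1R hu1R]
      have : p2 * u1 ≤ u2 * p1 := by linarith [hLp.1.1]
      exact_mod_cast this
    · refine le_trans ?_ h2
      rw [div_le_div_iff₀ hu1R hx2R']
      have : u2 * x2 ≤ y2 * u1 := by linarith [hLq.1.1]
      exact_mod_cast this

lemma const_of_good {b c : ℤ} {R : ℕ} {lo hi : ℝ}
    (hgood : ∀ x y z w : ℤ, (x, y, z, w) ∈ edges b c R → ¬ (lo ≤ (y : ℝ) / x ∧ (y : ℝ) / x ≤ hi))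
    {x1 y1 x2 y2 : ℤ} (hx1 : 1 ≤ x1) (hx1R : x1 ≤ R) (hy1 : 0 ≤ y1) (hyx1 : y1 ≤ x1)
    (hx2 : 1 ≤ x2) (hx2R : x2 ≤ R) (hy2 : 0 ≤ y2) (hyx2 : y2 ≤ x2)
    (h1 : lo ≤ (y1 : ℝ) / x1) (h1' : (y1 : ℝ) / x1 ≤ hi)
    (h2 : lo ≤ (y2 : ℝ) / x2) (h2' : (y2 : ℝ) / x2 ≤ hi) :
    gs b c x1 y1 = gs b c x2 y2 := by
  rcases le_total 0 (x1 * y2 - y1 * x2) with h | h
  · exact const_aux hgood hx1 hx1R hy1 hyx1 hx2 hx2R hy2 hyx2 h1 h2' h
  · exact (const_aux hgood hx2 hx2R hy2 hyx2 hx1 hx1R hy1 hyx1 h2 h1' (by linarith)).symm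

end Pool.Agent.H96Chowla
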