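import Mathlib

set_option autoImplicit false

namespace Pool.Agent.H96Chowla

open Finset MeasureTheory

/-- Finitely many maps which do not contract by more than a factor `2`, and finitely many balls of
small total radius: some point of `[3/8, 5/8]` avoids all of them under all of the maps. -/
lemma exists_good {J ι : Type*} (s : Finset J) (t : Finset ι) (φ : J → ℝ → ℝ)
    (hφ : ∀ j ∈ s, ∀ x ∈ Set.Icc (3 / 8 : ℝ) (5 / 8), ∀ y ∈ Set.Icc (3 / 8 : ℝ) (5 / 8),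
      |x - y| ≤ 2 * |φ j x - φ j y|)
    (c ρ : ι → ℝ) (hsum : (#s : ℝ) * ∑ i ∈ t, 4 * ρ i < 1 / 4)
    (hρ : ∀ i ∈ t, 0 ≤ ρ i) :
    ∃ θ ∈ Set.Icc (3 / 8 : ℝ) (5 / 8), ∀ j ∈ s, ∀ i ∈ t, ρ i < |φ j θ - c i| := by
  by_contra hcon
  push Not at hcon
  let S : J → ι → Set ℝ := fun j i => {θ | θ ∈ Set.Icc (3 / 8 : ℝ) (5 / 8) ∧ |φ j θ - c i| ≤ ρ i}
  have hsub : Set.Icc (3 / 8 : ℝ) (5 / 8) ⊆ ⋃ j ∈ s, ⋃ i ∈ t, S j i := by
    intro θ hθ
    obtain ⟨j, hj, i, hi, h⟩ := hcon θ hθ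
    simp only [Set.mem_iUnion]
    exact ⟨j, hj, i, hi, hθ, h⟩
  have hvol : ∀ j ∈ s, ∀ i ∈ t, volume (S j i) ≤ ENNReal.ofReal (4 * ρ i) := by
    intro j hj i hi
    refine (Real.volume_le_diam _).trans (Metric.ediam_le ?_)
    intro x hx y hy
    rw [edist_dist, Real.dist_eq]
    apply ENNReal.ofReal_le_ofReal
    have h1 := hφ j hj x hx.1 y hy.1
    have h2 : |φ j x - φ j y| ≤ ρ i + ρ i := by
      calc |φ j x - φ j y| = |(φ j x - c i) - (φ j y - c i)| := by ring_nf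
        _ ≤ |φ j x - c i| + |φ j y - c i| := abs_sub _ _
        _ ≤ _ := add_le_add hx.2 hy.2
    linarith
  have h1 : volume (Set.Icc (3 / 8 : ℝ) (5 / 8)) ≤
      ∑ j ∈ s, ∑ i ∈ t, ENNReal.ofReal (4 * ρ i) := by
    refine (measure_mono hsub).trans ((measure_biUnion_finset_le _ _).trans ?_)
    refine Finset.sum_le_sum fun j hj => (measure_biUnion_finset_le _ _).trans ?_
    exact Finset.sum_le_sum fun i hi => hvol j hj i hi
  rw [Real.volume_Icc, Finset.sum_const, ← ENNReal.ofReal_sum_of_nonneg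
    (fun i hi => by have := hρ i hi; positivity), ← ENNReal.ofReal_nsmul] at h1
  have h2 : (0 : ℝ) ≤ #s • ∑ i ∈ t, 4 * ρ i := by
    have : 0 ≤ ∑ i ∈ t, 4 * ρ i := Finset.sum_nonneg fun i hi => by
      have := hρ i hi; positivity
    positivity
  have h3 := (ENNReal.ofReal_le_ofReal_iff h2).mp h1
  rw [nsmul_eq_mul] at h3
  norm_num at h3
  linarith

end Pool.Agent.H96Chowla
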