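import Mathlib

set_option autoImplicit false

namespace Pool.Agent.H96Chowla

/-- The Möbius action of `p + q ω` on slopes. -/
noncomputable def mob (b c p q θ : ℝ) : ℝ := (q + p * θ + b * q * θ) / (p - c * q * θ)

/-- `p + qω` is close to the positive real axis. -/
def Near (b c K p q : ℝ) : Prop := 0 < p ∧ K * (16 * (1 + b + c) * |q|) ≤ p

section
variable {b c p q : ℝ}

lemma near_cq (hb : 0 ≤ b) (h : Near b c 1 p q) : 16 * (c * |q|) ≤ p := by
  have := h.2
  have h1 : 0 ≤ |q| := abs_nonneg q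
  have h2 : 0 ≤ b * |q| := by positivity
  linarith

lemma near_bq (hc : 0 ≤ c) (h : Near b c 1 p q) : 16 * (b * |q|) ≤ p := by
  have := h.2
  have h1 : 0 ≤ |q| := abs_nonneg q
  have h2 : 0 ≤ c * |q| := by positivity
  linarith

lemma near_q (hb : 0 ≤ b) (hc : 0 ≤ c) (h : Near b c 1 p q) : 16 * |q| ≤ p := by
  have := h.2
  have h1 : 0 ≤ b * |q| := by positivity
  have h2 : 0 ≤ c * |q| := by positivity
  linarith

lemma den_bounds (hb : 0 ≤ b) (hc : 0 ≤ c) (h : Near b c 1 p q) {θ : ℝ} (h0 : 0 ≤ θ) (h1 : θ ≤ 1) :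
    15 / 16 * p ≤ p - c * q * θ ∧ p - c * q * θ ≤ 17 / 16 * p := by
  have hcq := near_cq hb h
  have h2 : |c * q * θ| ≤ c * |q| := by
    rw [abs_mul, abs_mul, abs_of_nonneg hc, abs_of_nonneg h0]
    exact mul_le_of_le_one_right (by positivity) h1
  have h3 := abs_le.mp h2
  constructor <;> linarith [h3.1, h3.2]

lemma norm_bounds (hb : 0 ≤ b) (hc : 0 ≤ c) (h : Near b c 1 p q) :
    15 / 16 * p ^ 2 ≤ p ^ 2 + b * p * q + c * q ^ 2 ∧
      p ^ 2 + b * p * q + c * q ^ 2 ≤ 9 / 8 * p ^ 2 := by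
  have hp := h.1
  have hbq := near_bq hc h
  have hcq := near_cq hb h
  have hq := near_q hb hc h
  have h2 : |b * p * q| ≤ p ^ 2 / 16 := by
    rw [abs_mul, abs_mul, abs_of_nonneg hb, abs_of_pos hp]
    have : b * |q| * p ≤ p / 16 * p := mul_le_mul_of_nonneg_right (by linarith) hp.le
    nlinarith
  have h4 : c * q ^ 2 ≤ p ^ 2 / 256 := by
    rw [← sq_abs q]
    have : c * |q| * |q| ≤ (p / 16) * (p / 16) :=
      mul_le_mul (by linarith) (by linarith) (abs_nonneg q) (by positivity)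
    nlinarith
  have h5 : 0 ≤ c * q ^ 2 := by positivity
  have h3 := abs_le.mp h2
  constructor <;> nlinarith [h3.1, h3.2]

lemma mob_sub (hb : 0 ≤ b) (hc : 0 ≤ c) (h : Near b c 1 p q) {θ θ' : ℝ} (h0 : 0 ≤ θ) (h1 : θ ≤ 1)
    (h0' : 0 ≤ θ') (h1' : θ' ≤ 1) :
    mob b c p q θ - mob b c p q θ' =
      (p ^ 2 + b * p * q + c * q ^ 2) * (θ - θ') / ((p - c * q * θ) * (p - c * q * θ')) := by
  have hp := h.1
  have hd := (den_bounds hb hc h h0 h1).1
  have hd' := (den_bounds hb hc h h0' h1').1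
  have e1 : p - c * q * θ ≠ 0 := by
    have : 0 < 15 / 16 * p := by positivity
    linarith
  have e2 : p - c * q * θ' ≠ 0 := by
    have : 0 < 15 / 16 * p := by positivity
    linarith
  unfold mob
  rw [div_sub_div _ _ e1 e2]
  congr 1
  ring

lemma mob_lower (hb : 0 ≤ b) (hc : 0 ≤ c) (h : Near b c 1 p q) {θ θ' : ℝ} (h0 : 0 ≤ θ)
    (h1 : θ ≤ 1) (h0' : 0 ≤ θ') (h1' : θ' ≤ 1) :
    |θ - θ'| ≤ 2 * |mob b c p q θ - mob b c p q θ'| := by
  have hp := h.1
  obtain ⟨hd, hu⟩ := den_bounds hb hc h h0 h1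
  obtain ⟨hd', hu'⟩ := den_bounds hb hc h h0' h1'
  obtain ⟨hN, hN'⟩ := norm_bounds hb hc h
  have hpp : 0 < 15 / 16 * p := by positivity
  rw [mob_sub hb hc h h0 h1 h0' h1', abs_div, abs_mul,
    abs_of_pos (show 0 < p ^ 2 + b * p * q + c * q ^ 2 by
      have : 0 < 15 / 16 * p ^ 2 := by positivity
      linarith),
    abs_of_pos (show 0 < (p - c * q * θ) * (p - c * q * θ') from
      mul_pos (by linarith) (by linarith))]
  have hden : (p - c * q * θ) * (p - c * q * θ') ≤ (17 / 16 * p) * (17 / 16 * p) :=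
    mul_le_mul hu hu' (by linarith) (by linarith)
  have hdpos : 0 < (p - c * q * θ) * (p - c * q * θ') := mul_pos (by linarith) (by linarith)
  rw [← mul_div_assoc, le_div_iff₀ hdpos]
  have h3 : |θ - θ'| * ((p - c * q * θ) * (p - c * q * θ')) ≤
      |θ - θ'| * ((17 / 16 * p) * (17 / 16 * p)) := by gcongr
  have h4 : (15 / 16 * p ^ 2) * |θ - θ'| ≤ (p ^ 2 + b * p * q + c * q ^ 2) * |θ - θ'| := by gcongr
  have h5 : 0 ≤ p ^ 2 * |θ - θ'| := by positivity
  nlinarith

lemma mob_upper (hb : 0 ≤ b) (hc : 0 ≤ c) (h : Near b c 1 p q) {θ θ' : ℝ} (h0 : 0 ≤ θ)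
    (h1 : θ ≤ 1) (h0' : 0 ≤ θ') (h1' : θ' ≤ 1) :
    |mob b c p q θ - mob b c p q θ'| ≤ 2 * |θ - θ'| := by
  have hp := h.1
  obtain ⟨hd, hu⟩ := den_bounds hb hc h h0 h1
  obtain ⟨hd', hu'⟩ := den_bounds hb hc h h0' h1'
  obtain ⟨hN, hN'⟩ := norm_bounds hb hc h
  have hpp : 0 < 15 / 16 * p := by positivity
  rw [mob_sub hb hc h h0 h1 h0' h1', abs_div, abs_mul,
    abs_of_pos (show 0 < p ^ 2 + b * p * q + c * q ^ 2 by
      have : 0 < 15 / 16 * p ^ 2 := by positivity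
      linarith),
    abs_of_pos (show 0 < (p - c * q * θ) * (p - c * q * θ') from
      mul_pos (by linarith) (by linarith))]
  have hden : (15 / 16 * p) * (15 / 16 * p) ≤ (p - c * q * θ) * (p - c * q * θ') :=
    mul_le_mul hd hd' (by linarith) (by linarith)
  have hdpos : 0 < (p - c * q * θ) * (p - c * q * θ') := mul_pos (by linarith) (by linarith)
  rw [div_le_iff₀ hdpos]
  have h3 : |θ - θ'| * ((15 / 16 * p) * (15 / 16 * p)) ≤
      |θ - θ'| * ((p - c * q * θ) * (p - c * q * θ')) := by gcongr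
  have h4 : (p ^ 2 + b * p * q + c * q ^ 2) * |θ - θ'| ≤ (9 / 8 * p ^ 2) * |θ - θ'| := by gcongr
  have h5 : 0 ≤ p ^ 2 * |θ - θ'| := by positivity
  nlinarith

lemma mob_sub_self (hb : 0 ≤ b) (hc : 0 ≤ c) (h : Near b c 1 p q) {θ : ℝ} (h0 : 0 ≤ θ)
    (h1 : θ ≤ 1) : |mob b c p q θ - θ| * p ≤ 2 * ((1 + b + c) * |q|) := by
  have hp := h.1
  obtain ⟨hd, hu⟩ := den_bounds hb hc h h0 h1
  have hdpos : 0 < p - c * q * θ := by
    have : 0 < 15 / 16 * p := by positivity
    linarith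
  have e1 : mob b c p q θ - θ = q * (1 + b * θ + c * θ ^ 2) / (p - c * q * θ) := by
    unfold mob
    rw [div_sub' hdpos.ne']
    congr 1
    ring
  rw [e1, abs_div, abs_mul, abs_of_pos hdpos]
  have h2 : 0 ≤ 1 + b * θ + c * θ ^ 2 := by positivity
  rw [abs_of_nonneg h2, div_mul_eq_mul_div, div_le_iff₀ hdpos]
  have h3 : 1 + b * θ + c * θ ^ 2 ≤ 1 + b + c := by
    have e1 : b * θ ≤ b := mul_le_of_le_one_right hb h1
    have e2 : c * θ ^ 2 ≤ c := mul_le_of_le_one_right hc (pow_le_one₀ h0 h1)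
    linarith
  have h4 : |q| * (1 + b * θ + c * θ ^ 2) ≤ |q| * (1 + b + c) := by gcongr
  calc |q| * (1 + b * θ + c * θ ^ 2) * p ≤ |q| * (1 + b + c) * p := by gcongr
    _ ≤ |q| * (1 + b + c) * (2 * (p - c * q * θ)) := by
        gcongr
        linarith
    _ = _ := by ring

lemma mob_near (hb : 0 ≤ b) (hc : 0 ≤ c) (h : Near b c 1 p q) {θ : ℝ} (h0 : 3 / 8 ≤ θ)
    (h1 : θ ≤ 5 / 8) : 1 / 4 ≤ mob b c p q θ ∧ mob b c p q θ ≤ 3 / 4 := by
  have hp := h.1
  have h2 := mob_sub_self hb hc h (θ := θ) (by linarith) (by linarith)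
  have h3 : 2 * ((1 + b + c) * |q|) ≤ 1 / 8 * p := by
    have := h.2
    linarith
  have h4 : |mob b c p q θ - θ| ≤ 1 / 8 := le_of_mul_le_mul_right (h2.trans h3) hp
  have h5 := abs_le.mp h4
  constructor <;> linarith [h5.1, h5.2]

/-- composition law -/
lemma mob_comp {p' q' θ : ℝ} (h1 : p - c * q * θ ≠ 0) :
    mob b c p' q' (mob b c p q θ) =
      mob b c (p * p' - c * q * q') (p * q' + q * p' + b * q * q') θ := by
  unfold mob
  have e1 : q' + p' * ((q + p * θ + b * q * θ) / (p - c * q * θ)) +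
      b * q' * ((q + p * θ + b * q * θ) / (p - c * q * θ)) =
      (p * q' + q * p' + b * q * q' + (p * p' - c * q * q') * θ +
        b * (p * q' + q * p' + b * q * q') * θ) / (p - c * q * θ) := by
    rw [mul_div_assoc', mul_div_assoc', add_div' _ _ _ h1, add_div' _ _ _ h1]
    congr 1
    rw [div_mul_cancel₀ _ h1]
    ring
  have e2 : p' - c * q' * ((q + p * θ + b * q * θ) / (p - c * q * θ)) =
      (p * p' - c * q * q' - c * (p * q' + q * p' + b * q * q') * θ) / (p - c * q * θ) := by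
    rw [mul_div_assoc', sub_div' h1]
    congr 1
    ring
  rw [e1, e2, div_div_div_cancel_right₀ h1]

lemma near_mul (hb : 0 ≤ b) (hc : 0 ≤ c) {K p' q' : ℝ} (hK : 1 ≤ K) (h : Near b c (3 * K) p q)
    (h' : Near b c (3 * K) p' q') :
    Near b c K (p * p' - c * q * q') (p * q' + q * p' + b * q * q') ∧
      p * p' / 2 ≤ p * p' - c * q * q' := by
  obtain ⟨hp, hq⟩ := h
  obtain ⟨hp', hq'⟩ := h'
  set s := 1 + b + c with hs
  have hs1 : 1 ≤ s := by rw [hs]; linarith
  have hbs : b ≤ s := by rw [hs]; linarith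
  have hcs : c ≤ s := by rw [hs]; linarith
  have hpp : 0 < p * p' := mul_pos hp hp'
  have hqq : 0 ≤ |q| * |q'| := by positivity
  -- basic bounds
  have h1 : 48 * (K * s * (|q| * p')) ≤ p * p' := by
    have := mul_le_mul_of_nonneg_right hq hp'.le
    nlinarith
  have h2 : 48 * (K * s * (p * |q'|)) ≤ p * p' := by
    have := mul_le_mul_of_nonneg_left hq' hp.le
    nlinarith
  have h3 : 48 * 48 * ((K * s) * (K * s) * (|q| * |q'|)) ≤ p * p' := by
    have := mul_le_mul hq hq' (by positivity) hp.le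
    nlinarith
  have hKs1 : 1 ≤ K * s := by nlinarith
  have h4 : K * s * (s * (|q| * |q'|)) ≤ (K * s) * (K * s) * (|q| * |q'|) := by
    have : s ≤ K * s := by nlinarith
    have e : K * s * (s * (|q| * |q'|)) = (K * s) * s * (|q| * |q'|) := by ring
    rw [e]
    gcongr
  have h5 : s * (|q| * |q'|) ≤ (K * s) * (K * s) * (|q| * |q'|) := by
    have e : s * (|q| * |q'|) = 1 * s * (|q| * |q'|) := by ring
    rw [e]
    have : s ≤ K * s := by nlinarith
    gcongr
  have hcqq : |c * q * q'| ≤ s * (|q| * |q'|) := by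
    rw [abs_mul, abs_mul, abs_of_nonneg hc, mul_assoc]
    gcongr
  have hbqq : |b * q * q'| ≤ s * (|q| * |q'|) := by
    rw [abs_mul, abs_mul, abs_of_nonneg hb, mul_assoc]
    gcongr
  have hcl := abs_le.mp hcqq
  have hP : p * p' * (2303 / 2304) ≤ p * p' - c * q * q' := by
    linarith [hcl.2]
  refine ⟨⟨?_, ?_⟩, ?_⟩
  · have : 0 < p * p' * (2303 / 2304) := by positivity
    linarith
  · have hQ : |p * q' + q * p' + b * q * q'| ≤ p * |q'| + |q| * p' + s * (|q| * |q'|) := by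
      calc |p * q' + q * p' + b * q * q'| ≤ |p * q' + q * p'| + |b * q * q'| := abs_add_le _ _
        _ ≤ |p * q'| + |q * p'| + |b * q * q'| := by gcongr; exact abs_add_le _ _
        _ ≤ p * |q'| + |q| * p' + s * (|q| * |q'|) := by
            rw [abs_mul, abs_mul, abs_of_pos hp, abs_of_pos hp']
            gcongr
    calc K * (16 * s * |p * q' + q * p' + b * q * q'|)
        ≤ K * (16 * s * (p * |q'| + |q| * p' + s * (|q| * |q'|))) := by gcongr
      _ = 16 * (K * s * (p * |q'|)) + 16 * (K * s * (|q| * p')) +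
          16 * (K * s * (s * (|q| * |q'|))) := by ring
      _ ≤ p * p' * (2303 / 2304) := by linarith
      _ ≤ _ := hP
  · linarith

end

end Pool.Agent.H96Chowla
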