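import Mathlib
import Pool.Agent.Lib_helper96.Chowla.Edges
import Pool.Agent.Lib_helper96.Chowla.Mob
import Pool.Agent.Lib_helper96.Chowla.Measure

set_option autoImplicit false

namespace Pool.Agent.H96Chowla

open Finset

/-- the quadratic ring attached to `x² + b x y + c y²` -/
abbrev QO (b c : ℤ) := QuadraticAlgebra ℤ (-c) b

/-- sign of (the norm of) an element -/
def gO {b c : ℤ} (w : QO b c) : ℤ := gs b c w.re w.im

lemma gO_eq {b c : ℤ} (w : QO b c) : gO w = lam (QuadraticAlgebra.norm w) := by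
  rw [gO, gs, QuadraticAlgebra.norm_def]
  congr 1
  ring

lemma gO_mul {b c : ℤ} (w z : QO b c) : gO (w * z) = gO w * gO z := by
  rw [gO_eq, gO_eq, gO_eq, map_mul, lam_mul]

lemma gO_one {b c : ℤ} : gO (1 : QO b c) = 1 := by
  rw [gO_eq]
  simp [lam]

lemma gO_star {b c : ℤ} (w : QO b c) : gO (star w) = gO w := by
  rw [gO_eq, gO_eq, QuadraticAlgebra.norm_star]

/-- closeness to the positive real axis -/
def NearO {b c : ℤ} (K : ℝ) (w : QO b c) : Prop := Near (b : ℝ) c K w.re w.im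

/-- Möbius action of an element -/
noncomputable def mobO {b c : ℤ} (w : QO b c) (θ : ℝ) : ℝ := mob (b : ℝ) c w.re w.im θ

/-- all fractions of order `≤ R` within `δ` of `θ` have sign `s` -/
def Sgn (b c : ℤ) (R : ℕ) (δ θ : ℝ) (s : ℤ) : Prop :=
  ∀ x y : ℤ, 1 ≤ x → x ≤ R → 0 ≤ y → y ≤ x → |θ - (y : ℝ) / x| ≤ δ → gs b c x y = s

/-- `θ` avoids the sign changing edges and the big gaps -/
def Good (b c : ℤ) (R V D0 : ℕ) (δ θ : ℝ) : Prop :=
  (∀ x y z w : ℤ, (x, y, z, w) ∈ edges b c R → δ < |θ - (y : ℝ) / x|) ∧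
  (∀ d a : ℕ, 1 ≤ d → d < D0 → a ≤ d → 1 / (((V : ℝ) + 1) * d) < |θ - (a : ℝ) / d|)

section
variable {b c : ℤ} {R V D0 : ℕ} {δ : ℝ}

lemma NearO.mono {K K' : ℝ} {w : QO b c} (hb : 0 ≤ b) (hc : 0 ≤ c) (h : NearO K w) (hK : K' ≤ K) :
    NearO K' w := by
  refine ⟨h.1, le_trans ?_ h.2⟩
  have h1 : (0 : ℝ) ≤ b := by exact_mod_cast hb
  have h2 : (0 : ℝ) ≤ c := by exact_mod_cast hc
  gcongr

lemma nearO_mul (hb : 0 ≤ b) (hc : 0 ≤ c) {K : ℝ} (hK : 1 ≤ K) {w z : QO b c}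
    (hw : NearO (3 * K) w) (hz : NearO (3 * K) z) :
    NearO K (z * w) ∧ (w.re : ℝ) * z.re / 2 ≤ (z * w).re := by
  have h1 : (0 : ℝ) ≤ b := by exact_mod_cast hb
  have h2 : (0 : ℝ) ≤ c := by exact_mod_cast hc
  have h := near_mul h1 h2 hK hw hz
  have e1 : (((z * w).re : ℤ) : ℝ) = (w.re : ℝ) * z.re - c * w.im * z.im := by
    rw [QuadraticAlgebra.re_mul]; push_cast; ring
  have e2 : (((z * w).im : ℤ) : ℝ) = (w.re : ℝ) * z.im + w.im * z.re + b * w.im * z.im := by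
    rw [QuadraticAlgebra.im_mul]; push_cast; ring
  unfold NearO
  rw [e1, e2]
  exact h

lemma mobO_mul {w z : QO b c} {θ : ℝ} (h : (w.re : ℝ) - c * w.im * θ ≠ 0) :
    mobO (z * w) θ = mobO z (mobO w θ) := by
  have e1 : (((z * w).re : ℤ) : ℝ) = (w.re : ℝ) * z.re - c * w.im * z.im := by
    rw [QuadraticAlgebra.re_mul]; push_cast; ring
  have e2 : (((z * w).im : ℤ) : ℝ) = (w.re : ℝ) * z.im + w.im * z.re + b * w.im * z.im := by
    rw [QuadraticAlgebra.im_mul]; push_cast; ring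
  unfold mobO
  rw [mob_comp h, e1, e2]

lemma mobO_one {θ : ℝ} : mobO (1 : QO b c) θ = θ := by
  simp [mobO, mob, QuadraticAlgebra.re_one, QuadraticAlgebra.im_one]

/-- products of near elements are near -/
lemma near_prod (hb : 0 ≤ b) (hc : 0 ≤ c) {X : ℝ} (hX : 0 ≤ X) : ∀ (zs : List (QO b c)) (K : ℝ),
    1 ≤ K → (∀ z ∈ zs, NearO (3 ^ zs.length * K) z ∧ X ≤ z.re) →
      NearO K zs.prod ∧ (X / 2) ^ zs.length ≤ zs.prod.re := by
  intro zs
  induction zs with
  | nil =>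
    intro K hK _
    refine ⟨⟨?_, ?_⟩, ?_⟩
    · simp [QuadraticAlgebra.re_one]
    · simp [QuadraticAlgebra.re_one, QuadraticAlgebra.im_one]
    · simp [QuadraticAlgebra.re_one]
  | cons z zs ih =>
    intro K hK h
    have h1 := ih (3 * K) (by linarith) (fun w hw => by
      have := h w (List.mem_cons_of_mem _ hw)
      rw [List.length_cons, pow_succ] at this
      rw [← mul_assoc]; exact this)
    have h2 := h z List.mem_cons_self
    have h3 : NearO (3 * K) z := by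
      apply h2.1.mono hb hc
      rw [List.length_cons, pow_succ, mul_assoc]
      have : (1 : ℝ) ≤ 3 ^ zs.length := one_le_pow₀ (by norm_num)
      nlinarith
    obtain ⟨h4, h5⟩ := nearO_mul hb hc hK h1.1 h3
    rw [List.prod_cons]
    refine ⟨h4, ?_⟩
    rw [List.length_cons, pow_succ]
    calc (X / 2) ^ zs.length * (X / 2) ≤ zs.prod.re * (z.re / 2) := by
          have := h2.2
          have h6 : (0 : ℝ) ≤ zs.prod.re := h1.1.1.le
          gcongr
          exact h1.2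
      _ = zs.prod.re * z.re / 2 := by ring
      _ ≤ _ := h5

lemma good_frac (hV : 1 ≤ V) (hD0 : 4 ≤ δ * ((V + 1) * D0)) {θ : ℝ} (h0 : 1 / 4 ≤ θ)
    (h1 : θ ≤ 3 / 4) (hg : Good b c R V D0 δ θ) :
    ∃ d a : ℤ, 1 ≤ d ∧ d ≤ V ∧ 0 ≤ a ∧ a ≤ d ∧ |θ - (a : ℝ) / d| ≤ δ / 4 := by
  obtain ⟨j, k, hk0, hkV, hjk⟩ := Real.exists_int_int_abs_mul_sub_le θ (n := V) hV
  have hk0R : (0 : ℝ) < k := by exact_mod_cast hk0
  have hk1R : (1 : ℝ) ≤ k := by exact_mod_cast hk0
  have hV1 : (1 : ℝ) ≤ V := by exact_mod_cast hV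
  have hVp : (0 : ℝ) < V + 1 := by linarith
  have hhalf : 1 / ((V : ℝ) + 1) ≤ 1 / 2 := by
    apply one_div_le_one_div_of_le (by norm_num); linarith
  have habs := abs_le.mp (hjk.trans hhalf)
  have hj0 : 0 ≤ j := by
    have : (-1 : ℝ) < j := by nlinarith [habs.1, habs.2]
    have : (-1 : ℤ) < j := by exact_mod_cast this
    omega
  have hjk' : j ≤ k := by
    have : (j : ℝ) < k + 1 := by nlinarith [habs.1, habs.2]
    have : j < k + 1 := by exact_mod_cast this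
    omega
  have hdist : |θ - (j : ℝ) / k| ≤ 1 / (((V : ℝ) + 1) * k) := by
    have e : θ - (j : ℝ) / k = (k * θ - j) / k := by field_simp
    rw [e, abs_div, abs_of_pos hk0R, div_le_div_iff₀ hk0R (by positivity)]
    rw [le_div_iff₀ hVp] at hjk
    nlinarith
  refine ⟨k, j, hk0, hkV, hj0, hjk', ?_⟩
  by_cases hkD : k < D0
  · exfalso
    have hk' : ((k.toNat : ℕ) : ℤ) = k := Int.toNat_of_nonneg hk0.le
    have hj' : ((j.toNat : ℕ) : ℤ) = j := Int.toNat_of_nonneg hj0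
    have h2 := hg.2 k.toNat j.toNat (by omega) (by omega) (by omega)
    have e1 : ((k.toNat : ℕ) : ℝ) = k := by exact_mod_cast hk'
    have e2 : ((j.toNat : ℕ) : ℝ) = j := by exact_mod_cast hj'
    rw [e1, e2] at h2
    linarith
  · push Not at hkD
    have hD0pos : (0 : ℝ) < D0 := by
      rcases Nat.eq_zero_or_pos D0 with h | h
      · rw [h] at hD0; simp at hD0; linarith
      · exact_mod_cast h
    have hkD' : (D0 : ℝ) ≤ k := by exact_mod_cast hkD
    refine hdist.trans ?_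
    rw [div_le_div_iff₀ (by positivity) (by norm_num)]
    have hδ : 0 < δ := by
      by_contra hcon
      push Not at hcon
      have : δ * ((V + 1) * D0) ≤ 0 := mul_nonpos_of_nonpos_of_nonneg hcon (by positivity)
      linarith
    have : δ * ((V + 1) * D0) ≤ δ * ((V + 1) * k) := by gcongr
    linarith

lemma const_good {θ : ℝ} (hg : Good b c R V D0 δ θ)
    {x1 y1 x2 y2 : ℤ} (hx1 : 1 ≤ x1) (hx1R : x1 ≤ R) (hy1 : 0 ≤ y1) (hyx1 : y1 ≤ x1)
    (hx2 : 1 ≤ x2) (hx2R : x2 ≤ R) (hy2 : 0 ≤ y2) (hyx2 : y2 ≤ x2)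
    (h1 : |θ - (y1 : ℝ) / x1| ≤ δ) (h2 : |θ - (y2 : ℝ) / x2| ≤ δ) :
    gs b c x1 y1 = gs b c x2 y2 := by
  have h1' := abs_le.mp h1
  have h2' := abs_le.mp h2
  refine const_of_good (R := R) (lo := θ - δ) (hi := θ + δ) ?_ hx1 hx1R hy1 hyx1 hx2 hx2R hy2 hyx2
    (by linarith [h1'.2]) (by linarith [h1'.1]) (by linarith [h2'.2]) (by linarith [h2'.1])
  intro x y z w he hcon
  have h3 := hg.1 x y z w he
  have h4 : |θ - (y : ℝ) / x| ≤ δ := by
    rw [abs_le]
    constructor <;> linarith [hcon.1, hcon.2]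
  linarith

lemma exists_sgn (hV : 1 ≤ V) (hVR : V ≤ R) (hD0 : 4 ≤ δ * ((V + 1) * D0))
    (hδ : 0 ≤ δ) {θ : ℝ} (h0 : 1 / 4 ≤ θ)
    (h1 : θ ≤ 3 / 4) (hg : Good b c R V D0 δ θ) : ∃ s, Sgn b c R δ θ s := by
  obtain ⟨d, a, hd1, hdV, ha0, had, hda⟩ := good_frac hV hD0 h0 h1 hg
  refine ⟨gs b c d a, ?_⟩
  intro x y hx1 hxR hy0 hyx hxy
  exact const_good hg hx1 hxR hy0 hyx hd1 (by omega) ha0 had hxy (by linarith)

lemma transfer (hb : 0 ≤ b) (hc : 0 ≤ c) (hV : 1 ≤ V) (hD0 : 4 ≤ δ * ((V + 1) * D0))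
    (hδ : 0 ≤ δ) (hδ4 : δ ≤ 1 / 4) {B : ℕ} (hBV : 2 * B * V ≤ R) {z : QO b c} (hz : NearO 1 z)
    (hzB : z.re ≤ B) {θ : ℝ} (h0 : 1 / 4 ≤ θ) (h1 : θ ≤ 3 / 4) (h0' : 1 / 4 ≤ mobO z θ)
    (h1' : mobO z θ ≤ 3 / 4) (hg : Good b c R V D0 δ θ) (hg' : Good b c R V D0 δ (mobO z θ))
    {s : ℤ} (hs : Sgn b c R δ θ s) : Sgn b c R δ (mobO z θ) (gO z * s) := by
  have hbR : (0 : ℝ) ≤ b := by exact_mod_cast hb
  have hcR : (0 : ℝ) ≤ c := by exact_mod_cast hc
  obtain ⟨d, a, hd1, hdV, ha0, had, hda⟩ := good_frac hV hD0 h0 h1 hg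
  have hd1R : (1 : ℝ) ≤ d := by exact_mod_cast hd1
  have hdpos : (0 : ℝ) < d := by linarith
  have ha0R : (0 : ℝ) ≤ a := by exact_mod_cast ha0
  have hadR : (a : ℝ) ≤ d := by exact_mod_cast had
  have hr0 : 0 ≤ (a : ℝ) / d := by positivity
  have hr1 : (a : ℝ) / d ≤ 1 := by rw [div_le_one hdpos]; exact hadR
  have hzpos : (0 : ℝ) < z.re := hz.1
  have hzpos' : 0 < z.re := by exact_mod_cast hzpos
  have hB1 : 1 ≤ B := by omega
  have hsda : gs b c d a = s := by
    apply hs d a hd1 _ ha0 had (by linarith)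
    have : V ≤ 2 * B * V := by nlinarith
    omega
  obtain ⟨hden1, hden2⟩ := den_bounds hbR hcR hz hr0 hr1
  set x' : ℤ := z.re * d - c * z.im * a with hx'
  set y' : ℤ := z.re * a + z.im * d + b * z.im * a with hy'
  have ex : (x' : ℝ) = d * ((z.re : ℝ) - c * z.im * (a / d)) := by
    rw [hx']; push_cast
    field_simp
  have ey : (y' : ℝ) = d * ((z.im : ℝ) + z.re * (a / d) + b * z.im * (a / d)) := by
    rw [hy']; push_cast
    field_simp
    ring
  have hinner : 0 < (z.re : ℝ) - c * z.im * (a / d) := by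
    have : 0 < 15 / 16 * (z.re : ℝ) := by positivity
    linarith
  have hx'pos : (0 : ℝ) < x' := by rw [ex]; positivity
  have hx'1 : 1 ≤ x' := by
    have : 0 < x' := by exact_mod_cast hx'pos
    omega
  have hx'R : x' ≤ R := by
    have h2 : (x' : ℝ) ≤ R := by
      rw [ex]
      have hzB' : (z.re : ℝ) ≤ B := by exact_mod_cast hzB
      have hdV' : (d : ℝ) ≤ V := by exact_mod_cast hdV
      have hBV' : 2 * (B : ℝ) * V ≤ R := by exact_mod_cast hBV
      calc (d : ℝ) * ((z.re : ℝ) - c * z.im * (a / d)) ≤ V * (17 / 16 * B) := by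
            gcongr
            linarith
        _ ≤ 2 * B * V := by
            have hVB : (0 : ℝ) ≤ V * B := by positivity
            linarith
        _ ≤ R := hBV'
    exact_mod_cast h2
  have hslope : (y' : ℝ) / x' = mobO z ((a : ℝ) / d) := by
    rw [ex, ey, mobO, mob, mul_div_mul_left _ _ hdpos.ne']
  have hclose : |mobO z θ - (y' : ℝ) / x'| ≤ δ / 2 := by
    rw [hslope]
    have := mob_upper hbR hcR hz (θ := θ) (θ' := (a : ℝ) / d) (by linarith) (by linarith) hr0 hr1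
    unfold mobO
    linarith
  have hclose' := abs_le.mp hclose
  have hy'0 : 0 ≤ y' := by
    have : (0 : ℝ) ≤ (y' : ℝ) / x' := by linarith [hclose'.2]
    have h2 : (0 : ℝ) ≤ y' := by
      by_contra hcon
      push Not at hcon
      have := div_neg_of_neg_of_pos hcon hx'pos
      linarith
    exact_mod_cast h2
  have hy'x : y' ≤ x' := by
    have : (y' : ℝ) / x' ≤ 1 := by linarith [hclose'.1]
    rw [div_le_one hx'pos] at this
    exact_mod_cast this
  have hprod : gs b c x' y' = gO z * s := by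
    rw [← hsda]
    have e1 : gs b c x' y' = gO (z * (⟨d, a⟩ : QO b c)) := by
      rw [gO]
      congr 1
      rw [QuadraticAlgebra.re_mul, hx']; ring
    rw [e1, gO_mul]
    rfl
  intro x y hx1 hxR hy0 hyx hxy
  rw [← hprod]
  exact const_good hg' hx1 hxR hy0 hyx hx'1 hx'R hy'0 hy'x hxy (by linarith)

/-- running along a list of multiplications -/
lemma chain (hb : 0 ≤ b) (hc : 0 ≤ c) (hV : 1 ≤ V) (hD0 : 4 ≤ δ * ((V + 1) * D0))
    (hδ : 0 ≤ δ) (hδ4 : δ ≤ 1 / 4) {B : ℕ} (hBV : 2 * B * V ≤ R) {θ : ℝ} (h0 : 3 / 8 ≤ θ)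
    (h1 : θ ≤ 5 / 8) {s : ℤ} (hs : Sgn b c R δ θ s) : ∀ zs : List (QO b c),
    (∀ z ∈ zs, NearO (3 ^ zs.length * 1) z ∧ z.re ≤ B) →
    (∀ j ≤ zs.length, Good b c R V D0 δ (mobO (zs.drop j).prod θ)) →
    Sgn b c R δ (mobO zs.prod θ) (gO zs.prod * s) := by
  have hbR : (0 : ℝ) ≤ b := by exact_mod_cast hb
  have hcR : (0 : ℝ) ≤ c := by exact_mod_cast hc
  intro zs
  induction zs with
  | nil =>
    intro _ _
    rw [List.prod_nil, mobO_one, gO_one, one_mul]
    exact hs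
  | cons z zs ih =>
    intro h hg
    have h3 : ∀ w ∈ zs, NearO (3 ^ zs.length * 1) w ∧ w.re ≤ B := fun w hw => by
      have h2 := h w (List.mem_cons_of_mem _ hw)
      refine ⟨h2.1.mono hb hc ?_, h2.2⟩
      rw [List.length_cons, pow_succ]
      have : (1 : ℝ) ≤ 3 ^ zs.length := one_le_pow₀ (by norm_num)
      linarith
    have ih' := ih h3 (fun j hj => by
      have := hg (j + 1) (by simpa using hj)
      simpa using this)
    have hz := h z List.mem_cons_self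
    have hz1 : NearO 1 z := by
      apply hz.1.mono hb hc
      have : (1 : ℝ) ≤ 3 ^ (z :: zs).length := one_le_pow₀ (by norm_num)
      linarith
    have hprod : NearO 1 zs.prod :=
      (near_prod hb hc (X := 0) le_rfl zs 1 le_rfl (fun w hw =>
        ⟨(h3 w hw).1, by have := (h3 w hw).1.1; exact this.le⟩)).1
    have hprod' : NearO 1 (z :: zs).prod :=
      (near_prod hb hc (X := 0) le_rfl (z :: zs) 1 le_rfl (fun w hw =>
        ⟨(h w hw).1, by have := (h w hw).1.1; exact this.le⟩)).1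
    have hg0 := hg 0 (by simp)
    have hg1 := hg 1 (by simp)
    simp only [List.drop_zero, List.drop_succ_cons] at hg0 hg1
    have hm1 : 1 / 4 ≤ mobO zs.prod θ ∧ mobO zs.prod θ ≤ 3 / 4 :=
      mob_near hbR hcR hprod h0 h1
    have hm2 : 1 / 4 ≤ mobO (z :: zs).prod θ ∧ mobO (z :: zs).prod θ ≤ 3 / 4 :=
      mob_near hbR hcR hprod' h0 h1
    have hne : (zs.prod.re : ℝ) - c * zs.prod.im * θ ≠ 0 := by
      have h4 := (den_bounds hbR hcR hprod (show (0 : ℝ) ≤ θ by linarith) (by linarith)).1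
      have h5 : (0 : ℝ) < zs.prod.re := hprod.1
      have : 0 < 15 / 16 * (zs.prod.re : ℝ) := by positivity
      exact ne_of_gt (by linarith)
    have hcomp : mobO (z :: zs).prod θ = mobO z (mobO zs.prod θ) := by
      rw [List.prod_cons]; exact mobO_mul hne
    have hcomp' : gO (z :: zs).prod = gO z * gO zs.prod := by
      rw [List.prod_cons, gO_mul]
    rw [hcomp, hcomp', mul_assoc]
    have hm2' : 1 / 4 ≤ mobO z (mobO zs.prod θ) ∧ mobO z (mobO zs.prod θ) ≤ 3 / 4 := by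
      rw [← hcomp]; exact hm2
    exact transfer hb hc hV hD0 hδ hδ4 hBV hz1 hz.2 hm1.1 hm1.2 hm2'.1 hm2'.2 hg1
      (by rw [← hcomp]; exact hg0) ih'

/-- The core: a product of near elements which is extremely close to the real axis has sign `1`,
if there are few sign changing edges. -/
lemma core (hb : 0 ≤ b) (hc : 0 ≤ c) (hV : 1 ≤ V) (hD0 : 4 ≤ δ * ((V + 1) * D0))
    (hδ : 0 < δ) (hδ4 : δ ≤ 1 / 4) {B : ℕ} (hBV : 2 * B * V ≤ R) (hB : 1 ≤ B)
    (zs : List (QO b c))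
    (hz : ∀ z ∈ zs, NearO (3 ^ zs.length * 1) z ∧ z.re ≤ B)
    (hmeas : ((zs.length : ℝ) + 1) * (4 * δ * #(edges b c R) + 8 * (D0 / (V + 1))) < 1 / 4)
    (hclose : 4 * ((1 + b + c) * |(zs.prod.im : ℝ)|) ≤ δ * zs.prod.re) :
    gO zs.prod = 1 := by
  have hbR : (0 : ℝ) ≤ b := by exact_mod_cast hb
  have hcR : (0 : ℝ) ≤ c := by exact_mod_cast hc
  -- the balls
  let t : Finset ((ℤ × ℤ × ℤ × ℤ) ⊕ ((_ : ℕ) × ℕ)) :=
    (edges b c R).disjSum ((Ico 1 D0).sigma (fun d => range (d + 1)))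
  let cen : (ℤ × ℤ × ℤ × ℤ) ⊕ ((_ : ℕ) × ℕ) → ℝ :=
    Sum.elim (fun e => (e.2.1 : ℝ) / e.1) (fun p => (p.2 : ℝ) / p.1)
  let rad : (ℤ × ℤ × ℤ × ℤ) ⊕ ((_ : ℕ) × ℕ) → ℝ :=
    Sum.elim (fun _ => δ) (fun p => 1 / (((V : ℝ) + 1) * p.1))
  have hVp : (0 : ℝ) < V + 1 := by positivity
  have hnear : ∀ j : ℕ, NearO 1 (zs.drop j).prod := by
    intro j
    refine (near_prod hb hc (X := 0) le_rfl (zs.drop j) 1 le_rfl (fun w hw => ?_)).1
    have h1 := hz w (List.mem_of_mem_drop hw)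
    refine ⟨h1.1.mono hb hc ?_, by have := h1.1.1; exact this.le⟩
    have : (3 : ℝ) ^ (zs.drop j).length ≤ 3 ^ zs.length :=
      pow_le_pow_right₀ (by norm_num) (by simp)
    linarith
  have hsum : ∑ i ∈ t, 4 * rad i ≤ 4 * δ * #(edges b c R) + 8 * (D0 / (V + 1)) := by
    simp only [t, rad, sum_disjSum, Sum.elim_inl, Sum.elim_inr, sum_const, nsmul_eq_mul, sum_sigma,
      card_range]
    have h1 : ∀ d ∈ Ico 1 D0, (((d + 1 : ℕ) : ℝ)) * (4 * (1 / (((V : ℝ) + 1) * d))) ≤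
        8 / (V + 1) := by
      intro d hd
      rw [mem_Ico] at hd
      have hd1 : (1 : ℝ) ≤ d := by exact_mod_cast hd.1
      have hdp : (0 : ℝ) < d := by linarith
      have e : (((d + 1 : ℕ) : ℝ)) * (4 * (1 / (((V : ℝ) + 1) * d))) =
          4 * (d + 1) / ((V + 1) * d) := by push_cast; field_simp
      rw [e, div_le_div_iff₀ (by positivity) hVp]
      nlinarith
    have h2 := sum_le_sum h1
    rw [sum_const, nsmul_eq_mul, Nat.card_Ico] at h2
    have h3 : (((D0 - 1 : ℕ) : ℝ)) * (8 / ((V : ℝ) + 1)) ≤ 8 * (D0 / (V + 1)) := by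
      have : (((D0 - 1 : ℕ) : ℝ)) ≤ D0 := by exact_mod_cast Nat.sub_le _ _
      calc (((D0 - 1 : ℕ) : ℝ)) * (8 / ((V : ℝ) + 1)) ≤ D0 * (8 / ((V : ℝ) + 1)) := by gcongr
        _ = _ := by ring
    linarith
  obtain ⟨θ, hθ, hgood⟩ := exists_good (range (zs.length + 1)) t
    (fun j x => mobO (zs.drop j).prod x)
    (fun j _ x hx y hy => mob_lower hbR hcR (hnear j) (by linarith [hx.1]) (by linarith [hx.2])
      (by linarith [hy.1]) (by linarith [hy.2]))
    cen rad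
    (by
      rw [card_range]
      push_cast
      refine lt_of_le_of_lt ?_ hmeas
      gcongr)
    (by
      intro i hi
      rcases i with e | p
      · exact hδ.le
      · simp only [rad, Sum.elim_inr]; positivity)
  have hG : ∀ j ≤ zs.length, Good b c R V D0 δ (mobO (zs.drop j).prod θ) := by
    intro j hj
    have h1 := hgood j (by rw [mem_range]; omega)
    constructor
    · intro x y z w he
      have := h1 (Sum.inl (x, y, z, w)) (by simp only [t, inl_mem_disjSum]; exact he)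
      simpa [cen, rad] using this
    · intro d a hd1 hd2 ha
      have := h1 (Sum.inr ⟨d, a⟩) (by
        simp only [t, inr_mem_disjSum, mem_sigma, mem_Ico, mem_range]
        exact ⟨⟨hd1, hd2⟩, by omega⟩)
      simpa [cen, rad] using this
  have hVR : V ≤ R := by
    have : V ≤ 2 * B * V := by nlinarith
    omega
  have hGlast : Good b c R V D0 δ θ := by
    have := hG zs.length le_rfl
    rw [List.drop_length, List.prod_nil, mobO_one] at this
    exact this
  obtain ⟨s, hs⟩ := exists_sgn hV hVR hD0 hδ.le (by linarith [hθ.1]) (by linarith [hθ.2]) hGlast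
  have hchain := chain hb hc hV hD0 hδ.le hδ4 hBV hθ.1 hθ.2 hs zs hz hG
  obtain ⟨d, a, hd1, hdV, ha0, had, hda⟩ :=
    good_frac hV hD0 (θ := θ) (by linarith [hθ.1]) (by linarith [hθ.2]) hGlast
  have hdR : d ≤ R := by omega
  have hs1 : gs b c d a = s := hs d a hd1 hdR ha0 had (by linarith)
  have hprodpos : (0 : ℝ) < zs.prod.re := by
    have := (hnear 0).1
    simpa using this
  have hcl : |mobO zs.prod θ - θ| ≤ δ / 2 := by
    have h2 := mob_sub_self hbR hcR (hnear 0) (θ := θ) (by linarith [hθ.1]) (by linarith [hθ.2])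
    rw [List.drop_zero] at h2
    have h3 : |mobO zs.prod θ - θ| * zs.prod.re ≤ (δ / 2) * zs.prod.re := by
      unfold mobO
      linarith
    exact le_of_mul_le_mul_right h3 hprodpos
  have hs2 : gs b c d a = gO zs.prod * s := by
    apply hchain d a hd1 hdR ha0 had
    calc |mobO zs.prod θ - (a : ℝ) / d| = |(mobO zs.prod θ - θ) + (θ - (a : ℝ) / d)| := by ring_nf
      _ ≤ |mobO zs.prod θ - θ| + |θ - (a : ℝ) / d| := abs_add_le _ _
      _ ≤ δ := by linarith
  have hsne : s ≠ 0 := by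
    rw [← hs1, gs]
    apply lam_ne_zero
    have h1 : 0 < d ^ 2 := by positivity
    have h2 : 0 ≤ b * d * a := by positivity
    have h3 : 0 ≤ c * a ^ 2 := by positivity
    linarith
  have : gO zs.prod * s = 1 * s := by rw [← hs2, hs1, one_mul]
  exact mul_right_cancel₀ hsne this

end

end Pool.Agent.H96Chowla
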