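import Mathlib
import Pool.Agent.Lib_helper96.Chowla.Core

set_option autoImplicit false

namespace Pool.Agent.H96Chowla

open Finset Polynomial

/-! ### Iterated multiplicative differences -/

/-- `Δ h (n) = h n * h (n+1)` -/
def mdiff (h : ℕ → ℤ) : ℕ → ℤ := fun n => h n * h (n + 1)

lemma mdiff_sq {h : ℕ → ℤ} (hh : ∀ n, h n * h n = 1) (k : ℕ) :
    ∀ n, (mdiff^[k] h) n * (mdiff^[k] h) n = 1 := by
  induction k generalizing h with
  | zero => simpa using hh
  | succ k ih =>
    rw [Function.iterate_succ_apply]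
    apply ih
    intro n
    unfold mdiff
    calc h n * h (n + 1) * (h n * h (n + 1)) = (h n * h n) * (h (n + 1) * h (n + 1)) := by ring
      _ = 1 := by rw [hh, hh]; norm_num

lemma mdiff_two_pow (m : ℕ) : ∀ (h : ℕ → ℤ), (∀ n, h n * h n = 1) → ∀ n,
    (mdiff^[2 ^ m] h) n = h n * h (n + 2 ^ m) := by
  induction m with
  | zero => intro h _ n; simp [mdiff]
  | succ m ih =>
    intro h hh n
    have h1 : mdiff^[2 ^ (m + 1)] h = mdiff^[2 ^ m] (mdiff^[2 ^ m] h) := by
      rw [← Function.iterate_add_apply]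
      congr 2
      rw [pow_succ]; ring
    rw [h1, ih _ (mdiff_sq hh _) n, ih h hh, ih h hh]
    have e : n + 2 ^ m + 2 ^ m = n + 2 ^ (m + 1) := by rw [pow_succ]; ring
    rw [e]
    calc h n * h (n + 2 ^ m) * (h (n + 2 ^ m) * h (n + 2 ^ (m + 1))) =
        (h n * h (n + 2 ^ (m + 1))) * (h (n + 2 ^ m) * h (n + 2 ^ m)) := by ring
      _ = _ := by rw [hh, mul_one]

/-! ### the lists -/

variable {b c : ℤ}

/-- the point `X + Y ω` -/
def pt (b c X Y : ℤ) : QO b c := ⟨X, Y⟩

/-- list of `2^k` factors whose product is the `k`-th multiplicative difference at `X + Yω` -/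
def wl (b c X : ℤ) : ℕ → ℤ → List (QO b c)
  | 0, Y => [pt b c X Y]
  | k + 1, Y => wl b c X k Y ++ (wl b c X k (Y + 1)).map star

lemma wl_length (X : ℤ) (k : ℕ) : ∀ Y : ℤ, (wl b c X k Y).length = 2 ^ k := by
  induction k with
  | zero => intro Y; simp [wl]
  | succ k ih =>
    intro Y
    rw [wl, List.length_append, List.length_map, ih, ih, pow_succ]
    ring

/-- every factor is `X + Y'ω` or its conjugate with `Y ≤ Y' ≤ Y + k` -/
lemma wl_mem (X : ℤ) (k : ℕ) : ∀ (Y : ℤ) (z : QO b c), z ∈ wl b c X k Y →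
    ∃ Y' : ℤ, Y ≤ Y' ∧ Y' ≤ Y + k ∧ (z = pt b c X Y' ∨ z = star (pt b c X Y')) := by
  induction k with
  | zero =>
    intro Y z hz
    rw [wl, List.mem_singleton] at hz
    exact ⟨Y, le_rfl, by simp, Or.inl hz⟩
  | succ k ih =>
    intro Y z hz
    rw [wl, List.mem_append, List.mem_map] at hz
    rcases hz with hz | ⟨w, hw, rfl⟩
    · obtain ⟨Y', h1, h2, h3⟩ := ih Y z hz
      exact ⟨Y', h1, by push_cast; omega, h3⟩
    · obtain ⟨Y', h1, h2, h3⟩ := ih (Y + 1) w hw
      refine ⟨Y', by omega, by push_cast; omega, ?_⟩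
      rcases h3 with h3 | h3
      · right; rw [h3]
      · left; rw [h3, star_star]

lemma prod_map_star (l : List (QO b c)) : (l.map star).prod = star l.prod := by
  induction l with
  | nil => simp
  | cons a l ih => rw [List.map_cons, List.prod_cons, List.prod_cons, ih, star_mul, mul_comm]

lemma wl_prod_succ (X : ℤ) (k : ℕ) (Y : ℤ) :
    (wl b c X (k + 1) Y).prod = (wl b c X k Y).prod * star (wl b c X k (Y + 1)).prod := by
  rw [wl, List.prod_append, prod_map_star]

lemma wl_sign (X : ℤ) (k : ℕ) : ∀ (n : ℕ),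
    gO (wl b c X k n).prod = (mdiff^[k] (fun n : ℕ => gs b c X n)) n := by
  induction k with
  | zero => intro n; simp [wl, gO, pt]
  | succ k ih =>
    intro n
    rw [wl_prod_succ, gO_mul, gO_star, ih, Function.iterate_succ_apply', mdiff]
    congr 1
    have := ih (n + 1)
    push_cast at this
    exact this

/-! ### the polynomials -/

/-- `(E_k, O_k)` -/
noncomputable def EO (b c : ℤ) : ℕ → (QO b c)[X] × (QO b c)[X]
  | 0 => (X, 1)
  | k + 1 => ((EO b c k).1 * taylor QuadraticAlgebra.omega (EO b c k).2,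
      (EO b c k).2 * taylor QuadraticAlgebra.omega (EO b c k).1)

lemma wl_eq_EO (X : ℤ) (k : ℕ) : ∀ Y : ℤ, (wl b c X k Y).prod =
    (EO b c k).1.eval (pt b c X Y) * star ((EO b c k).2.eval (pt b c X Y)) := by
  induction k with
  | zero => intro Y; simp [wl, EO]
  | succ k ih =>
    intro Y
    rw [wl_prod_succ, ih, ih, EO, eval_mul, eval_mul, taylor_eval, taylor_eval, star_mul, star_mul,
      star_star]
    have e : pt b c X (Y + 1) = pt b c X Y + QuadraticAlgebra.omega := by
      ext <;> simp [pt]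
    rw [e]
    ring

lemma natDegree_taylor_sub {R : Type*} [CommRing R] (r : R) (P : R[X]) :
    (taylor r P - P).natDegree ≤ P.natDegree - 1 := by
  by_cases hP : P.natDegree = 0
  · obtain ⟨a, rfl⟩ := natDegree_eq_zero.mp hP
    simp
  · rw [natDegree_le_iff_coeff_eq_zero]
    intro N hN
    rw [coeff_sub]
    rcases (show P.natDegree ≤ N by omega).eq_or_lt with h | h
    · rw [← h, coeff_taylor_natDegree, leadingCoeff, sub_self]
    · rw [coeff_eq_zero_of_natDegree_lt h, coeff_eq_zero_of_natDegree_lt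
        (by rw [natDegree_taylor]; exact h), sub_zero]

lemma EO_degree (k : ℕ) : (EO b c (k + 1)).1.natDegree ≤ 2 ^ k ∧
    (EO b c (k + 1)).2.natDegree ≤ 2 ^ k ∧
    ((EO b c (k + 1)).1 - (EO b c (k + 1)).2).natDegree + (k + 1) ≤ 2 ^ k := by
  induction k with
  | zero =>
    have h1 : (EO b c 1).1 = X := by simp [EO]
    have h2 : (EO b c 1).2 = X + C QuadraticAlgebra.omega := by simp [EO]
    rw [zero_add, h1, h2, pow_zero]
    refine ⟨natDegree_X_le, ?_, ?_⟩
    · exact (natDegree_add_C).le.trans natDegree_X_le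
    · have : (X : (QO b c)[X]) - (X + C QuadraticAlgebra.omega) = -C QuadraticAlgebra.omega := by
        ring
      rw [this, natDegree_neg, natDegree_C]
      norm_num
  | succ k ih =>
    obtain ⟨h1, h2, h3⟩ := ih
    set E := (EO b c (k + 1)).1 with hE
    set O := (EO b c (k + 1)).2 with hO
    have e1 : (EO b c (k + 1 + 1)).1 = E * taylor QuadraticAlgebra.omega O := rfl
    have e2 : (EO b c (k + 1 + 1)).2 = O * taylor QuadraticAlgebra.omega E := rfl
    rw [e1, e2]
    refine ⟨?_, ?_, ?_⟩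
    · refine natDegree_mul_le.trans ?_
      rw [natDegree_taylor, pow_succ]; omega
    · refine natDegree_mul_le.trans ?_
      rw [natDegree_taylor, pow_succ]; omega
    · set P := E - O with hP
      have e3 : E = P + O := by rw [hP]; ring
      have e4 : E * taylor QuadraticAlgebra.omega O - O * taylor QuadraticAlgebra.omega E =
          P * (taylor QuadraticAlgebra.omega O - O) - O * (taylor QuadraticAlgebra.omega P - P) := by
        rw [e3, map_add]; ring
      rw [e4]
      have hd1 : (P * (taylor QuadraticAlgebra.omega O - O)).natDegree + (k + 2) ≤ 2 ^ (k + 1) := by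
        have := natDegree_mul_le (p := P) (q := taylor QuadraticAlgebra.omega O - O)
        have h4 := natDegree_taylor_sub (QuadraticAlgebra.omega : QO b c) O
        rw [pow_succ]
        have : 1 ≤ 2 ^ k := Nat.one_le_two_pow
        omega
      have hd2 : (O * (taylor QuadraticAlgebra.omega P - P)).natDegree + (k + 2) ≤ 2 ^ (k + 1) := by
        by_cases hP0 : P.natDegree = 0
        · obtain ⟨a, ha⟩ := natDegree_eq_zero.mp hP0
          have : taylor (QuadraticAlgebra.omega : QO b c) P - P = 0 := by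
            rw [← ha]; simp
          rw [this, mul_zero, natDegree_zero, zero_add]
          have : k + 1 < 2 ^ (k + 1) := Nat.lt_two_pow_self
          omega
        · have := natDegree_mul_le (p := O) (q := taylor QuadraticAlgebra.omega P - P)
          have h4 := natDegree_taylor_sub (QuadraticAlgebra.omega : QO b c) P
          rw [pow_succ]
          omega
      have := natDegree_sub_le (P * (taylor QuadraticAlgebra.omega O - O))
        (O * (taylor QuadraticAlgebra.omega P - P))
      omega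

/-! ### sizes -/

/-- size of an element -/
def sz (w : QO b c) : ℤ := |w.re| + |w.im|

lemma sz_nonneg (w : QO b c) : 0 ≤ sz w := by unfold sz; positivity

lemma sz_add (w z : QO b c) : sz (w + z) ≤ sz w + sz z := by
  unfold sz
  rw [QuadraticAlgebra.re_add, QuadraticAlgebra.im_add]
  linarith [abs_add_le w.re z.re, abs_add_le w.im z.im]

lemma sz_mul (hb : 0 ≤ b) (hc : 0 ≤ c) (w z : QO b c) :
    sz (w * z) ≤ (1 + b + c) * (sz w * sz z) := by
  unfold sz
  rw [QuadraticAlgebra.re_mul, QuadraticAlgebra.im_mul]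
  have h1 : |w.re * z.re + -c * w.im * z.im| ≤ |w.re| * |z.re| + c * (|w.im| * |z.im|) := by
    refine (abs_add_le _ _).trans ?_
    rw [abs_mul, abs_mul, abs_mul, abs_neg, abs_of_nonneg hc, mul_assoc]
  have h2 : |w.re * z.im + w.im * z.re + b * w.im * z.im| ≤
      |w.re| * |z.im| + |w.im| * |z.re| + b * (|w.im| * |z.im|) := by
    refine (abs_add_le _ _).trans ?_
    have := abs_add_le (w.re * z.im) (w.im * z.re)
    rw [abs_mul, abs_mul] at this
    have h3 : |b * w.im * z.im| = b * (|w.im| * |z.im|) := by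
      rw [abs_mul, abs_mul, abs_of_nonneg hb, mul_assoc]
    linarith
  have h3 : 0 ≤ |w.re| * |z.re| := by positivity
  have h4 : 0 ≤ |w.re| * |z.im| := by positivity
  have h5 : 0 ≤ |w.im| * |z.re| := by positivity
  have h6 : 0 ≤ |w.im| * |z.im| := by positivity
  have e : (1 + b + c) * ((|w.re| + |w.im|) * (|z.re| + |z.im|)) =
      (|w.re| * |z.re| + |w.re| * |z.im| + |w.im| * |z.re| + |w.im| * |z.im|) +
      b * (|w.re| * |z.re|) + b * (|w.re| * |z.im|) + b * (|w.im| * |z.re|) +
      b * (|w.im| * |z.im|) + c * (|w.re| * |z.re|) + c * (|w.re| * |z.im|) +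
      c * (|w.im| * |z.re|) + c * (|w.im| * |z.im|) := by ring
  rw [e]
  have g1 : 0 ≤ b * (|w.re| * |z.re|) := by positivity
  have g2 : 0 ≤ b * (|w.re| * |z.im|) := by positivity
  have g3 : 0 ≤ b * (|w.im| * |z.re|) := by positivity
  have g5 : 0 ≤ c * (|w.re| * |z.re|) := by positivity
  have g6 : 0 ≤ c * (|w.re| * |z.im|) := by positivity
  have g7 : 0 ≤ c * (|w.im| * |z.re|) := by positivity
  linarith

lemma sz_pow (hb : 0 ≤ b) (hc : 0 ≤ c) (z : QO b c) (i : ℕ) :
    sz (z ^ i) ≤ (1 + b + c) ^ i * sz z ^ i := by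
  induction i with
  | zero => simp [sz, QuadraticAlgebra.re_one, QuadraticAlgebra.im_one]
  | succ i ih =>
    rw [pow_succ]
    refine (sz_mul hb hc _ _).trans ?_
    have h0 : 0 ≤ 1 + b + c := by linarith
    calc (1 + b + c) * (sz (z ^ i) * sz z) ≤
        (1 + b + c) * (((1 + b + c) ^ i * sz z ^ i) * sz z) := by
          have := sz_nonneg z
          gcongr
      _ = _ := by ring

/-- polynomial growth -/
lemma sz_eval (hb : 0 ≤ b) (hc : 0 ≤ c) (P : (QO b c)[X]) {d : ℕ} (hd : P.natDegree ≤ d) :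
    ∃ C : ℤ, 0 ≤ C ∧ ∀ z : QO b c, 1 ≤ sz z → sz (P.eval z) ≤ C * sz z ^ d := by
  have h0 : 0 ≤ 1 + b + c := by linarith
  refine ⟨∑ i ∈ range (d + 1), (1 + b + c) * (sz (P.coeff i) * (1 + b + c) ^ i),
    Finset.sum_nonneg fun i _ => by have := sz_nonneg (P.coeff i); positivity, ?_⟩
  intro z hz
  rw [eval_eq_sum_range' (n := d + 1) (by omega)]
  have hsum : ∀ (s : Finset ℕ) (f : ℕ → QO b c), sz (∑ i ∈ s, f i) ≤ ∑ i ∈ s, sz (f i) := by
    intro s f
    induction s using Finset.induction_on with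
    | empty => simp [sz]
    | insert a s ha ih =>
      rw [sum_insert ha, sum_insert ha]
      exact (sz_add _ _).trans (by linarith)
  refine (hsum _ _).trans ?_
  rw [Finset.sum_mul]
  apply Finset.sum_le_sum
  intro i hi
  rw [mem_range] at hi
  refine (sz_mul hb hc _ _).trans ?_
  have h1 := sz_pow hb hc z i
  have h2 := sz_nonneg (P.coeff i)
  calc (1 + b + c) * (sz (P.coeff i) * sz (z ^ i)) ≤
      (1 + b + c) * (sz (P.coeff i) * ((1 + b + c) ^ i * sz z ^ i)) := by gcongr
    _ ≤ (1 + b + c) * (sz (P.coeff i) * ((1 + b + c) ^ i * sz z ^ d)) := by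
        gcongr
        omega
    _ = _ := by ring

lemma sz_star (hb : 0 ≤ b) (z : QO b c) : sz (star z) ≤ (1 + b) * sz z := by
  unfold sz
  rw [QuadraticAlgebra.re_star, QuadraticAlgebra.im_star, abs_neg]
  have h1 := abs_add_le z.re (b * z.im)
  rw [abs_mul, abs_of_nonneg hb] at h1
  have : 0 ≤ b * |z.re| := by positivity
  linarith

/-- The imaginary part of the `k+1`-st difference. -/
lemma im_wl (hb : 0 ≤ b) (hc : 0 ≤ c) (k : ℕ) : ∃ C : ℤ, 0 ≤ C ∧ ∀ X Y : ℤ, 1 ≤ X → 0 ≤ Y → Y ≤ X →
    |(wl b c X (k + 1) Y).prod.im| ≤ C * (2 * X) ^ (2 ^ (k + 1) - (k + 1)) := by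
  obtain ⟨h1, h2, h3⟩ := EO_degree (b := b) (c := c) k
  obtain ⟨C1, hC1, hP⟩ := sz_eval hb hc ((EO b c (k + 1)).1 - (EO b c (k + 1)).2)
    (d := 2 ^ k - (k + 1)) (by omega)
  obtain ⟨C2, hC2, hO⟩ := sz_eval hb hc (EO b c (k + 1)).2 (d := 2 ^ k) h2
  have h0 : 0 ≤ 1 + b + c := by linarith
  refine ⟨(1 + b + c) * (C1 * ((1 + b) * C2)), by positivity, ?_⟩
  intro X Y hX hY hYX
  set z := pt b c X Y with hz
  have hsz1 : 1 ≤ sz z := by
    rw [hz, sz, pt]; simp only
    rw [abs_of_pos (by linarith), abs_of_nonneg hY]; linarith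
  have hsz2 : sz z ≤ 2 * X := by
    rw [hz, sz, pt]; simp only
    rw [abs_of_pos (by linarith), abs_of_nonneg hY]; linarith
  have hk : k + 1 ≤ 2 ^ k := by omega
  rw [wl_eq_EO]
  set E := (EO b c (k + 1)).1 with hE
  set O := (EO b c (k + 1)).2 with hOdef
  have e1 : E.eval z * star (O.eval z) =
      (E - O).eval z * star (O.eval z) + algebraMap ℤ (QO b c) (QuadraticAlgebra.norm (O.eval z)) := by
    rw [QuadraticAlgebra.algebraMap_norm_eq_mul_star, eval_sub]; ring
  rw [e1, QuadraticAlgebra.im_add, QuadraticAlgebra.algebraMap_im, add_zero]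
  have h4 : |((E - O).eval z * star (O.eval z)).im| ≤ sz ((E - O).eval z * star (O.eval z)) := by
    unfold sz; linarith [abs_nonneg ((E - O).eval z * star (O.eval z)).re]
  refine h4.trans ((sz_mul hb hc _ _).trans ?_)
  have h5 := hP z hsz1
  have h6 := (sz_star hb (O.eval z)).trans (mul_le_mul_of_nonneg_left (hO z hsz1) (by linarith))
  have hsz0 : 0 ≤ sz z := by linarith
  calc (1 + b + c) * (sz ((E - O).eval z) * sz (star (O.eval z))) ≤
      (1 + b + c) * ((C1 * sz z ^ (2 ^ k - (k + 1))) * ((1 + b) * (C2 * sz z ^ 2 ^ k))) := by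
        have := sz_nonneg (star (O.eval z))
        gcongr
    _ = (1 + b + c) * (C1 * ((1 + b) * C2)) * sz z ^ ((2 ^ k - (k + 1)) + 2 ^ k) := by
        rw [pow_add]; ring
    _ = (1 + b + c) * (C1 * ((1 + b) * C2)) * sz z ^ (2 ^ (k + 1) - (k + 1)) := by
        congr 2
        rw [pow_succ]; omega
    _ ≤ _ := by
        gcongr

end Pool.Agent.H96Chowla
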