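import Mathlib
import Pool.Agent.Lib_helper96.Chowla.Tower

set_option autoImplicit false

namespace Pool.Agent.H96Chowla

open Finset

/-- One step of length `2^m` along the line `im`-direction does not change the sign. -/
lemma step {b c : ℤ} (hb : 0 ≤ b) (hc : 2 ≤ c) (m : ℕ) {C : ℤ}
    (hC : ∀ X Y : ℤ, 1 ≤ X → 0 ≤ Y → Y ≤ X →
      |(wl b c X (2 ^ m) Y).prod.im| ≤ C * (2 * X) ^ (2 ^ (2 ^ m) - 2 ^ m))
    {R V D0 : ℕ} {δ : ℝ} (hV : 1 ≤ V) (hD0 : 4 ≤ δ * ((V + 1) * D0))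
    (hδ : 0 < δ) (hδ4 : δ ≤ 1 / 4) {X Y : ℕ} (hX : 1 ≤ X) (hBV : 2 * (2 * X) * V ≤ R)
    (hnear : (3 : ℝ) ^ (2 ^ (2 ^ m)) * (16 * (1 + b + c) * (Y + 2 ^ m : ℝ)) ≤ X)
    (hmeas : (((2 ^ (2 ^ m) : ℕ) : ℝ) + 1) * (4 * δ * #(edges b c R) + 8 * (D0 / (V + 1))) < 1 / 4)
    (hclose : 4 * ((1 + b + c) * (C * (2 * X : ℝ) ^ (2 ^ (2 ^ m) - 2 ^ m))) ≤
      δ * ((X : ℝ) / 2) ^ (2 ^ (2 ^ m))) :
    gs b c X Y = gs b c X (Y + 2 ^ m) := by
  have hc0 : 0 ≤ c := by linarith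
  have hbR : (0 : ℝ) ≤ b := by exact_mod_cast hb
  have hcR : (0 : ℝ) ≤ c := by exact_mod_cast hc0
  have hXR : (1 : ℝ) ≤ X := by exact_mod_cast hX
  set L : ℕ := 2 ^ (2 ^ m) with hL
  set zs := wl b c X (2 ^ m) Y with hzs
  have hlen : zs.length = L := wl_length _ _ _
  have h3L : (1 : ℝ) ≤ 3 ^ L := one_le_pow₀ (by norm_num)
  have hκ1 : (1 : ℝ) ≤ 1 + b + c := by linarith
  -- near-ness of the factors
  have hmem : ∀ z ∈ zs, NearO (3 ^ L * 1) z ∧ (X : ℝ) ≤ z.re ∧ z.re ≤ 2 * X := by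
    intro z hz
    obtain ⟨Y', h1, h2, h3⟩ := wl_mem _ _ _ z hz
    have hY'0 : 0 ≤ Y' := by omega
    have hY'0R : (0 : ℝ) ≤ Y' := by exact_mod_cast hY'0
    have h2R : (Y' : ℝ) ≤ Y + 2 ^ m := by exact_mod_cast h2
    have h4 : (3 : ℝ) ^ L * (16 * (1 + b + c) * Y') ≤ X := by
      refine le_trans ?_ hnear
      gcongr
    have h4' : (b : ℝ) * Y' ≤ X := by
      refine le_trans ?_ h4
      have e1 : (b : ℝ) * Y' ≤ 16 * (1 + b + c) * Y' := by
        gcongr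
        linarith
      have e2 : 16 * (1 + b + c) * (Y' : ℝ) ≤ 3 ^ L * (16 * (1 + b + c) * Y') :=
        le_mul_of_one_le_left (by positivity) h3L
      exact e1.trans e2
    have h4i : b * Y' ≤ X := by exact_mod_cast h4'
    rcases h3 with rfl | rfl
    · refine ⟨⟨?_, ?_⟩, ?_, ?_⟩
      · simp only [pt]; exact_mod_cast (by linarith : (0 : ℝ) < X)
      · simp only [pt, mul_one]
        rw [abs_of_nonneg hY'0R]
        exact_mod_cast h4
      · simp [pt]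
      · simp only [pt]; linarith
    · have hre : (star (pt b c X Y')).re = X + b * Y' := by simp [pt]
      have him : (star (pt b c X Y')).im = -Y' := by simp [pt]
      have hbY : 0 ≤ b * Y' := by positivity
      have hbYR : (0 : ℝ) ≤ b * Y' := by positivity
      refine ⟨⟨?_, ?_⟩, ?_, ?_⟩
      · rw [hre]; push_cast; linarith
      · rw [hre, him]; push_cast
        rw [abs_neg, abs_of_nonneg hY'0R, mul_one]
        linarith
      · rw [hre]; push_cast; linarith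
      · rw [hre]; linarith
  have hYX : (Y : ℤ) ≤ X := by
    have : (Y : ℝ) ≤ X := by
      refine le_trans ?_ hnear
      have hY0 : (0 : ℝ) ≤ Y := by positivity
      calc (Y : ℝ) ≤ 1 * (1 * (Y + 2 ^ m : ℝ)) := by
            have : (0 : ℝ) ≤ 2 ^ m := by positivity
            linarith
        _ ≤ 3 ^ L * (16 * (1 + b + c) * (Y + 2 ^ m : ℝ)) := by
            gcongr
            linarith
    exact_mod_cast this
  have hprod := near_prod hb hc0 (X := X) (by positivity) zs 1 le_rfl (fun z hz => by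
    rw [hlen]; exact ⟨(hmem z hz).1, (hmem z hz).2.1⟩)
  rw [hlen] at hprod
  have him : |(zs.prod.im : ℝ)| ≤ C * (2 * X : ℝ) ^ (L - 2 ^ m) := by
    have := hC X Y (by exact_mod_cast hX) (by positivity) hYX
    exact_mod_cast this
  have hone : gO zs.prod = 1 := by
    refine core hb hc0 hV hD0 hδ hδ4 (B := 2 * X) hBV (by omega) zs ?_ ?_ ?_
    · intro z hz
      rw [hlen]
      refine ⟨(hmem z hz).1, ?_⟩
      push_cast
      exact (hmem z hz).2.2
    · rw [hlen]; exact hmeas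
    · calc 4 * ((1 + (b : ℝ) + c) * |(zs.prod.im : ℝ)|) ≤
          4 * ((1 + b + c) * (C * (2 * X : ℝ) ^ (L - 2 ^ m))) := by gcongr
        _ ≤ δ * ((X : ℝ) / 2) ^ L := hclose
        _ ≤ δ * zs.prod.re := by gcongr; exact hprod.2
  have hXpos : (0 : ℤ) < X := by exact_mod_cast hX
  have hsign := wl_sign (b := b) (c := c) X (2 ^ m) Y
  rw [← hzs, hone, mdiff_two_pow m _ (fun n => gs_mul_self hb hc hXpos (by positivity))] at hsign
  have h1 := gs_mul_self hb hc hXpos (show (0 : ℤ) ≤ ((Y + 2 ^ m : ℕ) : ℤ) by positivity)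
  have h2 : gs b c X ((Y + 2 ^ m : ℕ) : ℤ) = gs b c X (Y + 2 ^ m) := by push_cast; rfl
  rw [← h2]
  calc gs b c X Y = gs b c X Y * (gs b c X ((Y + 2 ^ m : ℕ) : ℤ) * gs b c X ((Y + 2 ^ m : ℕ) : ℤ)) := by
        rw [h1, mul_one]
    _ = (gs b c X Y * gs b c X ((Y + 2 ^ m : ℕ) : ℤ)) * gs b c X ((Y + 2 ^ m : ℕ) : ℤ) := by ring
    _ = gs b c X ((Y + 2 ^ m : ℕ) : ℤ) := by rw [← hsign, one_mul]

end Pool.Agent.H96Chowla
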