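import Mathlib
import Pool.Agent.Lib_helper96.Chowla.Step
import Pool.Agent.Lib_helper96.Chowla.NearMinus
import Pool.Agent.Lib_helper96.Chowla.Divisors

set_option autoImplicit false

namespace Pool.Agent.H96Chowla

open Finset Filter Topology

/-- contradiction from running along the line -/
lemma no_run {b c : ℤ} (hb : 0 ≤ b) (hc : 2 ≤ c) (m : ℕ) {C : ℤ}
    (hC : ∀ X Y : ℤ, 1 ≤ X → 0 ≤ Y → Y ≤ X →
      |(wl b c X (2 ^ m) Y).prod.im| ≤ C * (2 * X) ^ (2 ^ (2 ^ m) - 2 ^ m))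
    {R V D0 : ℕ} {δ : ℝ} (hV : 1 ≤ V) (hD0 : 4 ≤ δ * ((V + 1) * D0))
    (hδ : 0 < δ) (hδ4 : δ ≤ 1 / 4) {x0 y0 t : ℕ} (hx0 : 1 ≤ x0) (ht : 1 ≤ t)
    (hg : gs b c x0 y0 = -1) (hBV : 2 * (2 * (2 ^ m * t * x0)) * V ≤ R)
    (hnear : (3 : ℝ) ^ (2 ^ (2 ^ m)) * (16 * (1 + b + c) * y0) ≤ x0)
    (hmeas : (((2 ^ (2 ^ m) : ℕ) : ℝ) + 1) * (4 * δ * #(edges b c R) + 8 * (D0 / (V + 1))) < 1 / 4)
    (hclose : 4 * ((1 + b + c) * (C * (2 * (2 ^ m * t * x0 : ℕ) : ℝ) ^ (2 ^ (2 ^ m) - 2 ^ m))) ≤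
      δ * (((2 ^ m * t * x0 : ℕ) : ℝ) / 2) ^ (2 ^ (2 ^ m))) : False := by
  have hc0 : 0 ≤ c := by linarith
  have hbR : (0 : ℝ) ≤ b := by exact_mod_cast hb
  have hcR : (0 : ℝ) ≤ c := by exact_mod_cast hc0
  set X : ℕ := 2 ^ m * t * x0 with hX
  have hX1 : 1 ≤ X := Nat.mul_pos (Nat.mul_pos (by positivity) ht) hx0
  have hXpos : (0 : ℤ) < X := by exact_mod_cast hX1
  have hrun : ∀ k : ℕ, k ≤ t * y0 → gs b c X ((2 ^ m * k : ℕ) : ℤ) = 1 := by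
    intro k
    induction k with
    | zero =>
      intro _
      rw [mul_zero, gs]
      have e : (X : ℤ) ^ 2 + b * X * ((0 : ℕ) : ℤ) + c * ((0 : ℕ) : ℤ) ^ 2 = (X : ℤ) ^ 2 := by
        push_cast; ring
      rw [e]
      exact lam_sq hXpos.ne'
    | succ k ih =>
      intro hk
      rw [← ih (by omega)]
      have hst := step hb hc m hC hV hD0 hδ hδ4 (X := X) (Y := 2 ^ m * k) hX1 hBV (by
        have h1 : ((2 ^ m * k : ℕ) : ℝ) + 2 ^ m ≤ 2 ^ m * t * y0 := by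
          have : ((k + 1 : ℕ) : ℝ) ≤ ((t * y0 : ℕ) : ℝ) := by exact_mod_cast hk
          push_cast at this ⊢
          calc (2 : ℝ) ^ m * k + 2 ^ m = 2 ^ m * (k + 1) := by ring
            _ ≤ 2 ^ m * (t * y0) := by gcongr
            _ = _ := by ring
        calc (3 : ℝ) ^ (2 ^ (2 ^ m)) * (16 * (1 + b + c) * (((2 ^ m * k : ℕ) : ℝ) + 2 ^ m)) ≤
            (3 : ℝ) ^ (2 ^ (2 ^ m)) * (16 * (1 + b + c) * (2 ^ m * t * y0)) := by gcongr
          _ = 2 ^ m * t * ((3 : ℝ) ^ (2 ^ (2 ^ m)) * (16 * (1 + b + c) * y0)) := by ring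
          _ ≤ 2 ^ m * t * x0 := by gcongr
          _ = X := by rw [hX]; push_cast; ring) hmeas hclose
      rw [hst]
      have e : ((2 ^ m * (k + 1) : ℕ) : ℤ) = ((2 ^ m * k : ℕ) : ℤ) + 2 ^ m := by push_cast; ring
      rw [e]
  have h1 := hrun (t * y0) le_rfl
  have h2 : gs b c X ((2 ^ m * (t * y0) : ℕ) : ℤ) = gs b c x0 y0 := by
    have := gs_scale b c ((2 ^ m * t : ℕ) : ℤ) x0 y0 (by
      have : 0 < 2 ^ m * t := Nat.mul_pos (by positivity) ht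
      exact_mod_cast this)
    rw [← this]
    have e1 : (X : ℤ) = ((2 ^ m * t : ℕ) : ℤ) * x0 := by rw [hX]; push_cast; ring
    have e2 : ((2 ^ m * (t * y0) : ℕ) : ℤ) = ((2 ^ m * t : ℕ) : ℤ) * y0 := by push_cast; ring
    rw [e1, e2]
  rw [h2, hg] at h1
  norm_num at h1

lemma final_contra {b c : ℤ} (hb : 0 ≤ b) (hc : 2 ≤ c) (m : ℕ) {C : ℤ} (hC0 : 0 ≤ C)
    (hC : ∀ X Y : ℤ, 1 ≤ X → 0 ≤ Y → Y ≤ X →
      |(wl b c X (2 ^ m) Y).prod.im| ≤ C * (2 * X) ^ (2 ^ (2 ^ m) - 2 ^ m))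
    {x0 y0 : ℕ} (hx0 : 1 ≤ x0) (hg : gs b c x0 y0 = -1)
    (hnear : (3 : ℝ) ^ (2 ^ (2 ^ m)) * (16 * (1 + b + c) * y0) ≤ x0) (C5 : ℝ) (hC5 : 0 ≤ C5) :
    ∃ U0 : ℝ, ∀ (N : ℕ) (u : ℝ), U0 ≤ u → u ^ 8 ≤ N → (N : ℝ) ≤ u ^ (2 ^ m) →
      (∀ R : ℕ, (1 + b + c) * (R : ℤ) ^ 2 ≤ N → (#(edges b c R) : ℝ) ≤ C5 * N / u ^ 6) → False := by
  have hc0 : 0 ≤ c := by linarith
  have hbR : (0 : ℝ) ≤ b := by exact_mod_cast hb
  have hcR : (2 : ℝ) ≤ c := by exact_mod_cast hc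
  set κ : ℝ := 1 + b + c with hκ
  have hκ3 : 3 ≤ κ := by rw [hκ]; linarith
  set L : ℕ := 2 ^ (2 ^ m) with hL
  set J : ℕ := 2 ^ m with hJ
  set C6 : ℝ := 4 * κ * C * 2 ^ (L - J) * 2 ^ L * 8 ^ J with hC6
  have hCR : (0 : ℝ) ≤ C := by exact_mod_cast hC0
  refine ⟨8 * 2 ^ m * x0 + 2 * κ + (4 * ((L : ℝ) + 1) * (4 * C5 + 40 * κ) + 1) + C6 + 4, ?_⟩
  intro N u hu hu8 huJ hE
  have hA1 : (0 : ℝ) ≤ 8 * 2 ^ m * x0 := by positivity
  have hA2 : (0 : ℝ) ≤ 2 * κ := by positivity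
  have hA3 : (0 : ℝ) ≤ 4 * ((L : ℝ) + 1) * (4 * C5 + 40 * κ) := by positivity
  have hA4 : 0 ≤ C6 := by rw [hC6]; positivity
  have hu1 : 1 ≤ u := by linarith
  have hu4 : 4 ≤ u := by linarith
  have hupos : 0 < u := by linarith
  have hux : 8 * 2 ^ m * x0 ≤ u := by linarith
  have huκ : 2 * κ ≤ u := by linarith
  have huL : 4 * ((L : ℝ) + 1) * (4 * C5 + 40 * κ) < u := by linarith
  have huC : C6 ≤ u := by linarith
  have hNpos : (0 : ℝ) < N := lt_of_lt_of_le (by positivity) hu8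
  -- parameters
  set δ : ℝ := u ^ 4 / N with hδ
  have hδpos : 0 < δ := by positivity
  have hu4' : u ≤ u ^ 4 := by
    calc u = u ^ 1 := (pow_one u).symm
      _ ≤ u ^ 4 := pow_le_pow_right₀ hu1 (by norm_num)
  have hδ4 : δ ≤ 1 / 4 := by
    rw [hδ, div_le_div_iff₀ hNpos (by norm_num)]
    have : u ^ 4 * 4 ≤ u ^ 8 := by
      have : u ^ 8 = u ^ 4 * u ^ 4 := by ring
      rw [this]
      gcongr
      linarith
    linarith
  have h2m : (0 : ℝ) < 2 ^ m := by positivity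
  have hx0R : (1 : ℝ) ≤ x0 := by exact_mod_cast hx0
  set t : ℕ := ⌊u / (4 * 2 ^ m * x0)⌋₊ with ht
  have hdenpos : (0 : ℝ) < 4 * 2 ^ m * x0 := by positivity
  have htle : (t : ℝ) * (4 * 2 ^ m * x0) ≤ u := by
    have := Nat.floor_le (show 0 ≤ u / (4 * 2 ^ m * x0) by positivity)
    rw [← ht, le_div_iff₀ hdenpos] at this
    exact this
  have htge : u < ((t : ℝ) + 1) * (4 * 2 ^ m * x0) := by
    have := Nat.lt_floor_add_one (u / (4 * 2 ^ m * x0))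
    rw [← ht, div_lt_iff₀ hdenpos] at this
    exact this
  have ht1 : 1 ≤ t := by
    rw [ht, Nat.one_le_floor_iff, le_div_iff₀ hdenpos]
    linarith
  set X : ℕ := 2 ^ m * t * x0 with hX
  have hXR : (X : ℝ) = 2 ^ m * t * x0 := by rw [hX]; push_cast; ring
  have hX4 : 4 * (X : ℝ) ≤ u := by rw [hXR]; linarith
  have hX8 : u / 8 ≤ X := by
    rw [hXR]
    have : (4 * 2 ^ m * x0 : ℝ) ≤ u / 2 := by linarith
    linarith
  have hX1 : 1 ≤ X := Nat.mul_pos (Nat.mul_pos (by positivity) ht1) hx0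
  have hXR1 : (1 : ℝ) ≤ X := by exact_mod_cast hX1
  set κn : ℕ := (1 + b + c).toNat with hκn
  have hκnz : (κn : ℤ) = 1 + b + c := Int.toNat_of_nonneg (by linarith)
  have hκnR : (κn : ℝ) = κ := by
    have : ((κn : ℤ) : ℝ) = ((1 + b + c : ℤ) : ℝ) := by rw [hκnz]
    push_cast at this
    exact this
  have hκnpos : 0 < κn := by omega
  set R : ℕ := Nat.sqrt (N / κn) with hR
  have hR1 : (1 + b + c) * (R : ℤ) ^ 2 ≤ N := by
    have h1 : R ^ 2 ≤ N / κn := Nat.sqrt_le' _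
    have h2 : κn * R ^ 2 ≤ N := by
      calc κn * R ^ 2 ≤ κn * (N / κn) := by gcongr
        _ ≤ N := Nat.mul_div_le _ _
    rw [← hκnz]
    exact_mod_cast h2
  have hR2 : (N : ℝ) < κ * ((R : ℝ) + 1) ^ 2 := by
    have h1 : N / κn < (R + 1) ^ 2 := Nat.lt_succ_sqrt' _
    have h2 : N < κn * (R + 1) ^ 2 := by
      rw [mul_comm]
      exact (Nat.div_lt_iff_lt_mul hκnpos).mp h1
    have h3 : (N : ℝ) < κn * ((R : ℝ) + 1) ^ 2 := by exact_mod_cast h2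
    rwa [hκnR] at h3
  set V : ℕ := R / (2 * (2 * X)) with hV
  have hBV : 2 * (2 * X) * V ≤ R := Nat.mul_div_le _ _
  have hRV : (R : ℝ) + 1 ≤ 4 * X * (V + 1) := by
    have h1 : R < 2 * (2 * X) * (V + 1) := Nat.lt_mul_div_succ R (by omega)
    have h2 : R + 1 ≤ 2 * (2 * X) * (V + 1) := h1
    have h3 : (R : ℝ) + 1 ≤ 2 * (2 * X) * (V + 1) := by exact_mod_cast h2
    linarith
  have hRu : (R : ℝ) + 1 ≤ u * (V + 1) := by
    refine hRV.trans ?_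
    gcongr
  have hR3 : u ^ 4 / κ < (R : ℝ) + 1 := by
    have h1 : (u ^ 4 / κ) ^ 2 < ((R : ℝ) + 1) ^ 2 := by
      have h2 : (u ^ 4 / κ) ^ 2 = u ^ 8 / κ ^ 2 := by rw [div_pow]; ring
      rw [h2, div_lt_iff₀ (by positivity)]
      calc u ^ 8 ≤ N := hu8
        _ < κ * ((R : ℝ) + 1) ^ 2 := hR2
        _ ≤ κ * κ * ((R : ℝ) + 1) ^ 2 := by
            gcongr
            exact le_mul_of_one_le_left (by linarith) (by linarith)
        _ = _ := by ring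
    exact lt_of_pow_lt_pow_left₀ 2 (by positivity) h1
  have hV1 : 1 ≤ V := by
    rw [hV, Nat.one_le_div_iff (by omega)]
    have h1 : u + 1 ≤ u ^ 4 / κ := by
      rw [le_div_iff₀ (by linarith)]
      have h2 : 2 * κ * u ≤ u ^ 4 := by
        calc 2 * κ * u ≤ u * u := by gcongr
          _ ≤ u * u ^ 3 := by
            gcongr
            calc u = u ^ 1 := (pow_one u).symm
              _ ≤ u ^ 3 := pow_le_pow_right₀ hu1 (by norm_num)
          _ = u ^ 4 := by ring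
      calc (u + 1) * κ ≤ (2 * u) * κ := by gcongr; linarith
        _ = 2 * κ * u := by ring
        _ ≤ u ^ 4 := h2
    have h2 : (2 * (2 * X) : ℝ) ≤ R := by linarith
    exact_mod_cast h2
  have hVpos : (0 : ℝ) < (V : ℝ) + 1 := by positivity
  set D0 : ℕ := ⌈4 / (δ * (V + 1))⌉₊ with hD0
  have hD1 : 4 ≤ δ * ((V + 1) * D0) := by
    have := Nat.le_ceil (4 / (δ * (V + 1)))
    rw [← hD0, div_le_iff₀ (by positivity)] at this
    linarith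
  have hD2 : (D0 : ℝ) ≤ 4 / (δ * (V + 1)) + 1 := (Nat.ceil_lt_add_one (by positivity)).le
  -- bound on (V+1)
  have hVsq : (N : ℝ) < κ * (u ^ 2 * ((V : ℝ) + 1) ^ 2) := by
    calc (N : ℝ) < κ * ((R : ℝ) + 1) ^ 2 := hR2
      _ ≤ κ * (u * (V + 1)) ^ 2 := by gcongr
      _ = _ := by ring
  have hVlow : u ^ 3 / κ ≤ (V : ℝ) + 1 := by
    have h1 : u * (u ^ 3 / κ) ≤ u * ((V : ℝ) + 1) := by
      calc u * (u ^ 3 / κ) = u ^ 4 / κ := by ring
        _ ≤ (R : ℝ) + 1 := hR3.le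
        _ ≤ _ := hRu
    exact le_of_mul_le_mul_left h1 hupos
  have hδV : u ^ 2 / κ ≤ δ * ((V : ℝ) + 1) ^ 2 := by
    rw [hδ, div_le_iff₀ (by linarith), div_mul_eq_mul_div, div_mul_eq_mul_div, le_div_iff₀ hNpos]
    have : u ^ 2 * N ≤ u ^ 2 * (κ * (u ^ 2 * ((V : ℝ) + 1) ^ 2)) := by gcongr
    linarith
  have hterm2 : 8 * ((D0 : ℝ) / (V + 1)) ≤ 40 * κ / u := by
    have h1 : 8 * ((D0 : ℝ) / (V + 1)) ≤ 8 * ((4 / (δ * (V + 1)) + 1) / (V + 1)) := by gcongr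
    have h2 : 8 * ((4 / (δ * ((V : ℝ) + 1)) + 1) / (V + 1)) =
        32 / (δ * ((V : ℝ) + 1) ^ 2) + 8 / (V + 1) := by
      field_simp
      ring
    have h3 : 32 / (δ * ((V : ℝ) + 1) ^ 2) ≤ 32 / (u ^ 2 / κ) :=
      div_le_div_of_nonneg_left (by norm_num) (by positivity) hδV
    have h4 : 8 / ((V : ℝ) + 1) ≤ 8 / (u ^ 3 / κ) :=
      div_le_div_of_nonneg_left (by norm_num) (by positivity) hVlow
    have h5 : 32 / (u ^ 2 / κ) ≤ 32 * κ / u := by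
      rw [div_div_eq_mul_div]
      apply div_le_div_of_nonneg_left (by positivity) hupos
      calc u = u ^ 1 := (pow_one u).symm
        _ ≤ u ^ 2 := pow_le_pow_right₀ hu1 (by norm_num)
    have h6 : 8 / (u ^ 3 / κ) ≤ 8 * κ / u := by
      rw [div_div_eq_mul_div]
      apply div_le_div_of_nonneg_left (by positivity) hupos
      calc u = u ^ 1 := (pow_one u).symm
        _ ≤ u ^ 3 := pow_le_pow_right₀ hu1 (by norm_num)
    calc 8 * ((D0 : ℝ) / (V + 1)) ≤ 32 * κ / u + 8 * κ / u := by linarith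
      _ = 40 * κ / u := by ring
  have hterm1 : 4 * δ * (#(edges b c R) : ℝ) ≤ 4 * C5 / u := by
    calc 4 * δ * (#(edges b c R) : ℝ) ≤ 4 * δ * (C5 * N / u ^ 6) := by
          gcongr
          exact hE R hR1
      _ = 4 * C5 / u ^ 2 := by
          rw [hδ]
          field_simp
      _ ≤ 4 * C5 / u := by
          apply div_le_div_of_nonneg_left (by positivity) hupos
          calc u = u ^ 1 := (pow_one u).symm
            _ ≤ u ^ 2 := pow_le_pow_right₀ hu1 (by norm_num)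
  have hmeas : (((2 ^ (2 ^ m) : ℕ) : ℝ) + 1) *
      (4 * δ * #(edges b c R) + 8 * (D0 / (V + 1))) < 1 / 4 := by
    rw [← hL]
    calc ((L : ℝ) + 1) * (4 * δ * #(edges b c R) + 8 * (D0 / (V + 1))) ≤
        ((L : ℝ) + 1) * (4 * C5 / u + 40 * κ / u) := by gcongr
      _ = (4 * ((L : ℝ) + 1) * (4 * C5 + 40 * κ)) / (4 * u) := by
          field_simp
      _ < 1 / 4 := by
          rw [div_lt_div_iff₀ (by positivity) (by norm_num)]
          linarith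
  refine no_run hb hc m hC hV1 hD1 hδpos hδ4 hx0 ht1 hg hBV hnear hmeas ?_
  rw [← hX, ← hL, ← hJ]
  have hJL : J ≤ L := Nat.lt_two_pow_self.le
  have hXJ : 4 * κ * C * 2 ^ (L - J) * 2 ^ L ≤ δ * (X : ℝ) ^ J := by
    have h1 : u ^ 4 / 8 ^ J ≤ δ * (X : ℝ) ^ J := by
      calc u ^ 4 / 8 ^ J = u ^ 4 / N * (N / 8 ^ J) := by field_simp
        _ ≤ u ^ 4 / N * (u ^ J / 8 ^ J) := by gcongr
        _ = δ * (u / 8) ^ J := by rw [hδ, div_pow]
        _ ≤ _ := by gcongr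
    refine le_trans ?_ h1
    rw [le_div_iff₀ (by positivity)]
    calc 4 * κ * C * 2 ^ (L - J) * 2 ^ L * 8 ^ J = C6 := by rw [hC6]
      _ ≤ u := huC
      _ ≤ u ^ 4 := hu4'
  calc 4 * (κ * (C * (2 * (X : ℝ)) ^ (L - J))) =
      (4 * κ * C * 2 ^ (L - J) * 2 ^ L) * ((X : ℝ) ^ (L - J) / 2 ^ L) := by
        rw [mul_pow]; field_simp
    _ ≤ (δ * (X : ℝ) ^ J) * ((X : ℝ) ^ (L - J) / 2 ^ L) := by gcongr
    _ = δ * ((X : ℝ) / 2) ^ L := by
        have e : (X : ℝ) ^ L = X ^ J * X ^ (L - J) := by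
          rw [← pow_add]; congr 1; omega
        rw [div_pow, e]; ring

end Pool.Agent.H96Chowla
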