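import Mathlib
import Pool.Agent.Lib_helper96.Chowla.MinusMany

set_option autoImplicit false

namespace Pool.Agent.H96Chowla

open Finset Filter Topology

/-- uniform divisor bound for the values `n² + b n + c`, `n ≤ N` -/
lemma div_values {b c : ℤ} (hb : 0 ≤ b) (hc : 2 ≤ c) {η : ℝ} (hη : 0 < η) :
    ∃ C : ℝ, 0 ≤ C ∧ ∀ N n : ℕ, 1 ≤ n → n ≤ N →
      (#(((n : ℤ) ^ 2 + b * n + c).natAbs.divisors) : ℝ) ≤ C * ((N : ℝ) ^ η) ^ 2 := by
  obtain ⟨C, hC1, hC⟩ := divisors_le_rpow η hη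
  have hbR : (0 : ℝ) ≤ b := by exact_mod_cast hb
  have hcR : (2 : ℝ) ≤ c := by exact_mod_cast hc
  refine ⟨C * (1 + b + c : ℝ) ^ η, by positivity, ?_⟩
  intro N n hn hnN
  have hnR : (1 : ℝ) ≤ n := by exact_mod_cast hn
  have hnNR : (n : ℝ) ≤ N := by exact_mod_cast hnN
  have hNR : (1 : ℝ) ≤ N := hnR.trans hnNR
  have hpos : 0 < (n : ℤ) ^ 2 + b * n + c := by positivity
  have hne : ((n : ℤ) ^ 2 + b * n + c).natAbs ≠ 0 := by
    rw [Int.natAbs_ne_zero]; exact hpos.ne'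
  refine (hC _ hne).trans ?_
  have hval : ((((n : ℤ) ^ 2 + b * n + c).natAbs : ℕ) : ℝ) ≤ (1 + b + c) * ((N : ℝ) * N) := by
    have h1 : ((((n : ℤ) ^ 2 + b * n + c).natAbs : ℕ) : ℝ) = (n : ℝ) ^ 2 + b * n + c := by
      rw [Nat.cast_natAbs, abs_of_pos hpos]
      push_cast
      rfl
    rw [h1]
    have e1 : (n : ℝ) ^ 2 ≤ N * N := by
      rw [sq]; gcongr
    have e2 : (b : ℝ) * n ≤ b * (N * N) := by
      gcongr
      calc (n : ℝ) ≤ N := hnNR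
        _ = N * 1 := (mul_one _).symm
        _ ≤ N * N := by gcongr
    have e3 : (c : ℝ) ≤ c * ((N : ℝ) * N) := by
      apply le_mul_of_one_le_right (by linarith)
      calc (1 : ℝ) = 1 * 1 := by ring
        _ ≤ N * N := by gcongr
    calc (n : ℝ) ^ 2 + b * n + c ≤ N * N + b * (N * N) + c * (N * N) := by linarith
      _ = _ := by ring
  have h5 : ((((n : ℤ) ^ 2 + b * n + c).natAbs : ℕ) : ℝ) ^ η ≤
      (1 + b + c : ℝ) ^ η * ((N : ℝ) ^ η) ^ 2 := by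
    calc ((((n : ℤ) ^ 2 + b * n + c).natAbs : ℕ) : ℝ) ^ η ≤ ((1 + b + c) * ((N : ℝ) * N)) ^ η :=
          Real.rpow_le_rpow (by positivity) hval hη.le
      _ = (1 + b + c : ℝ) ^ η * ((N : ℝ) ^ η) ^ 2 := by
          rw [Real.mul_rpow (by linarith) (by positivity),
            Real.mul_rpow (by positivity) (by positivity), sq]
  calc C * ((((n : ℤ) ^ 2 + b * n + c).natAbs : ℕ) : ℝ) ^ η ≤
      C * ((1 + b + c : ℝ) ^ η * ((N : ℝ) ^ η) ^ 2) := by gcongr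
    _ = _ := by ring

theorem minus_many {b c : ℤ} (hb : 0 ≤ b) (hc : 2 ≤ c) (hD : b ^ 2 - 4 * c ≠ 0) {ε : ℝ}
    (hε : 0 < ε) (hε1 : ε ≤ 1) :
    ∀ᶠ N : ℕ in atTop, (N : ℝ) ^ (1 - ε) ≤ #(signSet b c (-1) N) := by
  have hc0 : 0 ≤ c := by linarith
  have hbR : (0 : ℝ) ≤ b := by exact_mod_cast hb
  have hcR : (2 : ℝ) ≤ c := by exact_mod_cast hc
  obtain ⟨m, hm⟩ := pow_unbounded_of_one_lt (8 / ε) (show (1 : ℝ) < 2 by norm_num)
  rw [div_lt_iff₀ hε] at hm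
  obtain ⟨k, hk⟩ : ∃ k, 2 ^ m = k + 1 := Nat.exists_eq_succ_of_ne_zero (by positivity)
  obtain ⟨C, hC0, hC⟩ := im_wl hb hc0 k
  rw [← hk] at hC
  -- the near minus element
  obtain ⟨K, hK⟩ := exists_nat_ge ((3 : ℝ) ^ (2 ^ (2 ^ m)) * (16 * (1 + b + c)))
  obtain ⟨x, y, hx, hy, hxy, hlam⟩ := near_minus hD K
  obtain ⟨x0, rfl⟩ := Int.eq_ofNat_of_zero_le hx.le
  obtain ⟨y0, rfl⟩ := Int.eq_ofNat_of_zero_le hy.le
  have hg : gs b c x0 y0 = -1 := hlam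
  have hx0 : 1 ≤ x0 := by omega
  have hnear : (3 : ℝ) ^ (2 ^ (2 ^ m)) * (16 * (1 + b + c) * y0) ≤ (x0 : ℝ) := by
    have h1 : ((K * y0 : ℕ) : ℝ) ≤ (x0 : ℝ) := by exact_mod_cast hxy
    push_cast at h1
    calc (3 : ℝ) ^ (2 ^ (2 ^ m)) * (16 * (1 + b + c) * y0) =
        (3 : ℝ) ^ (2 ^ (2 ^ m)) * (16 * (1 + b + c)) * (y0 : ℝ) := by ring
      _ ≤ (K : ℝ) * (y0 : ℝ) := by gcongr
      _ ≤ (x0 : ℝ) := h1
  obtain ⟨C5, hC5, hdiv⟩ := div_values hb hc (η := ε / 8) (by positivity)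
  obtain ⟨U0, hU0⟩ := final_contra hb hc m hC0 hC hx0 hg hnear C5 hC5
  have htend : Tendsto (fun N : ℕ => (N : ℝ) ^ (ε / 8)) atTop atTop :=
    (tendsto_rpow_atTop (by positivity)).comp tendsto_natCast_atTop_atTop
  filter_upwards [htend.eventually_ge_atTop U0, eventually_ge_atTop 1] with N hN hN1
  by_contra hcon
  push Not at hcon
  have hN1R : (1 : ℝ) ≤ N := by exact_mod_cast hN1
  have hN0 : (0 : ℝ) < N := by linarith
  set u : ℝ := (N : ℝ) ^ (ε / 8) with hu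
  have hupos : 0 < u := Real.rpow_pos_of_pos hN0 _
  have hu8 : u ^ 8 = (N : ℝ) ^ ε := by
    rw [hu, ← Real.rpow_natCast, ← Real.rpow_mul hN0.le]
    congr 1
    push_cast; ring
  refine hU0 N u hN ?_ ?_ ?_
  · rw [hu8]
    calc (N : ℝ) ^ ε ≤ (N : ℝ) ^ (1 : ℝ) := Real.rpow_le_rpow_of_exponent_le hN1R hε1
      _ = N := Real.rpow_one _
  · rw [hu, ← Real.rpow_natCast, ← Real.rpow_mul hN0.le]
    calc (N : ℝ) = (N : ℝ) ^ (1 : ℝ) := (Real.rpow_one _).symm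
      _ ≤ _ := by
        apply Real.rpow_le_rpow_of_exponent_le hN1R
        push_cast
        linarith
  · intro R hR
    have h1 := card_edges_le hb hc hR
    have h2 : (#(edges b c R) : ℝ) ≤ ∑ n ∈ signSet b c (-1) N,
        (#(((n : ℤ) ^ 2 + b * n + c).natAbs.divisors) : ℝ) := by exact_mod_cast h1
    have h3 : ∑ n ∈ signSet b c (-1) N, (#(((n : ℤ) ^ 2 + b * n + c).natAbs.divisors) : ℝ) ≤
        ∑ n ∈ signSet b c (-1) N, C5 * u ^ 2 := by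
      apply Finset.sum_le_sum
      intro n hn
      rw [signSet, mem_filter, mem_Icc] at hn
      exact hdiv N n hn.1.1 hn.1.2
    rw [Finset.sum_const, nsmul_eq_mul] at h3
    refine h2.trans (h3.trans ?_)
    have h4 : (N : ℝ) ^ (1 - ε) = N / u ^ 8 := by
      rw [hu8, Real.rpow_sub hN0, Real.rpow_one]
    rw [h4] at hcon
    calc (#(signSet b c (-1) N) : ℝ) * (C5 * u ^ 2) ≤ (N / u ^ 8) * (C5 * u ^ 2) := by gcongr
      _ = C5 * N / u ^ 6 := by field_simp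

end Pool.Agent.H96Chowla
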