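import Mathlib
import Pool.Agent.Lib_helper96.Chowla.Minus2

set_option autoImplicit false

namespace Pool.Agent.H96Chowla

open Finset Filter Topology

/-- Unimodular pairs with coordinates at most `R` whose ends have the same sign. -/
noncomputable def edgesP (b c : ℤ) (R : ℕ) : Finset (ℤ × ℤ × ℤ × ℤ) :=
  ((Icc (1 : ℤ) R) ×ˢ (Icc (0 : ℤ) R) ×ˢ (Icc (1 : ℤ) R) ×ˢ (Icc (0 : ℤ) R)).filter
    (fun e => e.1 * e.2.2.2 - e.2.1 * e.2.2.1 = 1 ∧
      gs b c e.1 e.2.1 = gs b c e.2.2.1 e.2.2.2)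

lemma mem_edgesP {b c : ℤ} {R : ℕ} {x y z w : ℤ} :
    (x, y, z, w) ∈ edgesP b c R ↔ (1 ≤ x ∧ x ≤ R) ∧ (0 ≤ y ∧ y ≤ R) ∧ (1 ≤ z ∧ z ≤ R) ∧
      (0 ≤ w ∧ w ≤ R) ∧ x * w - y * z = 1 ∧ gs b c x y = gs b c z w := by
  simp only [edgesP, mem_filter, mem_product, mem_Icc]
  tauto

lemma card_edgesP_le {b c : ℤ} (hb : 0 ≤ b) (hc : 2 ≤ c) {R N : ℕ}
    (hN : (1 + b + c) * (R : ℤ) ^ 2 ≤ N) :
    #(edgesP b c R) ≤ ∑ n ∈ signSet b c 1 N,
      #(((n : ℤ) ^ 2 + b * n + c).natAbs.divisors) := by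
  rw [← card_sigma]
  let φ : ℤ × ℤ × ℤ × ℤ → (_ : ℕ) × ℕ := fun e =>
    ⟨(e.1 * e.2.2.1 + b * e.2.1 * e.2.2.1 + c * e.2.1 * e.2.2.2).toNat,
      (e.1 ^ 2 + b * e.1 * e.2.1 + c * e.2.1 ^ 2).toNat⟩
  apply card_le_card_of_injOn φ
  · rintro ⟨x, y, z, w⟩ he
    rw [mem_coe, mem_edgesP] at he
    obtain ⟨⟨hx1, hx2⟩, ⟨hy1, hy2⟩, ⟨hz1, hz2⟩, ⟨hw1, hw2⟩, hdet, hne⟩ := he
    simp only [φ]
    set n := x * z + b * y * z + c * y * w with hn
    have hn1 : 1 ≤ n := by
      have h1 : 1 ≤ x * z := by nlinarith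
      have h2 : 0 ≤ b * y * z := by positivity
      have h3 : 0 ≤ c * y * w := by positivity
      linarith
    have hnN : n ≤ N := by
      have h1 : x * z ≤ R * R := by gcongr
      have h2 : b * y * z ≤ b * R * R := by gcongr
      have h3 : c * y * w ≤ c * R * R := by gcongr
      calc n ≤ R * R + b * R * R + c * R * R := by rw [hn]; linarith
        _ = (1 + b + c) * (R : ℤ) ^ 2 := by ring
        _ ≤ N := hN
    have hcast : ((n.toNat : ℕ) : ℤ) = n := Int.toNat_of_nonneg (by linarith)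
    have hedge := form_edge b c x y z w hdet
    rw [← hn] at hedge
    have hFu := form_pos hb hc (show 0 < x by linarith) hy1
    have hFv := form_pos hb hc (show 0 < z by linarith) hw1
    simp only [coe_sigma, Set.mem_sigma_iff, mem_coe, signSet, mem_filter, mem_Icc, hcast,
      Nat.mem_divisors]
    refine ⟨⟨⟨by omega, by omega⟩, ?_⟩, ?_, ?_⟩
    · have h1 := gs_edge b c x y z w hdet
      rw [← hn] at h1
      rw [← h1, hne]
      exact gs_mul_self hb hc (show 0 < z by linarith) hw1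
    · rw [← hedge, ← Int.natCast_dvd_natCast, Int.dvd_natAbs, Int.toNat_of_nonneg hFu.le]
      exact dvd_mul_right _ _
    · rw [← hedge]
      rw [Int.natAbs_ne_zero]
      exact mul_ne_zero hFu.ne' hFv.ne'
  · rintro ⟨x, y, z, w⟩ he ⟨x', y', z', w'⟩ he' heq
    rw [mem_coe, mem_edgesP] at he he'
    obtain ⟨⟨hx1, hx2⟩, ⟨hy1, hy2⟩, ⟨hz1, hz2⟩, ⟨hw1, hw2⟩, hdet, hne⟩ := he
    obtain ⟨⟨hx1', hx2'⟩, ⟨hy1', hy2'⟩, ⟨hz1', hz2'⟩, ⟨hw1', hw2'⟩, hdet', hne'⟩ := he'
    simp only [φ, Sigma.mk.injEq, heq_eq_eq] at heq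
    obtain ⟨h1, h2⟩ := heq
    have hp1 : 0 ≤ x * z + b * y * z + c * y * w := by
      have : 0 ≤ x * z := by positivity
      have : 0 ≤ b * y * z := by positivity
      have : 0 ≤ c * y * w := by positivity
      linarith
    have hp1' : 0 ≤ x' * z' + b * y' * z' + c * y' * w' := by
      have : 0 ≤ x' * z' := by positivity
      have : 0 ≤ b * y' * z' := by positivity
      have : 0 ≤ c * y' * w' := by positivity
      linarith
    have hFu := form_pos hb hc (show 0 < x by linarith) hy1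
    have hFu' := form_pos hb hc (show 0 < x' by linarith) hy1'
    have hn : x * z + b * y * z + c * y * w = x' * z' + b * y' * z' + c * y' * w' := by omega
    have hA : x ^ 2 + b * x * y + c * y ^ 2 = x' ^ 2 + b * x' * y' + c * y' ^ 2 := by omega
    obtain ⟨e1, e2, e3, e4⟩ := edge_inj hb hc (by linarith) hy1 (by linarith) hy1' hdet hdet' hn hA
    rw [e1, e2, e3, e4]

lemma exists_mate {x y : ℤ} (hx : 2 ≤ x) (hy : 0 ≤ y) (hyx : y ≤ x) (hcop : IsCoprime x y) :
    ∃ z w : ℤ, 1 ≤ z ∧ z ≤ x ∧ 0 ≤ w ∧ w ≤ x ∧ x * w - y * z = 1 := by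
  obtain ⟨s, t, hst⟩ := hcop
  have hx0 : x ≠ 0 := by omega
  have hxpos : 0 < x := by omega
  set z : ℤ := (-t) % x with hz
  set k : ℤ := (-t) / x with hk
  have hzk : z = -t - x * k := by
    have := Int.emod_add_mul_ediv (-t) x
    rw [hz, hk]; linarith
  have hz0 : 0 ≤ z := Int.emod_nonneg _ hx0
  have hzx : z < x := Int.emod_lt_of_pos _ hxpos
  have hdet : x * (s - k * y) - y * z = 1 := by rw [hzk]; linear_combination hst
  have hz1 : 1 ≤ z := by
    rcases hz0.eq_or_lt with h | h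
    · exfalso
      rw [← h, mul_zero, sub_zero] at hdet
      have : x ∣ 1 := ⟨_, hdet.symm⟩
      have := Int.le_of_dvd one_pos this
      omega
    · omega
  refine ⟨z, s - k * y, hz1, hzx.le, ?_, ?_, hdet⟩
  · by_contra hcon
    push Not at hcon
    have h1 : x * (s - k * y) < 0 := mul_neg_of_pos_of_neg hxpos hcon
    have h2 : 0 ≤ y * z := by positivity
    linarith
  · have h1 : y * z ≤ x * (x - 1) := by
      apply mul_le_mul hyx (by omega) hz0 (by omega)
    have h2 : x * (s - k * y) ≤ x * x := by linarith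
    exact le_of_mul_le_mul_left h2 hxpos

/-- primitive vectors in the triangle -/
def prims (R : ℕ) : Finset ((_ : ℕ) × ℕ) :=
  (Icc 2 R).sigma (fun x => (range x).filter (fun y => x.Coprime y))

lemma prims_card_le {b c : ℤ} (hb : 0 ≤ b) (hc : 2 ≤ c) (R : ℕ) :
    #(prims R) ≤ 2 * #(edgesP b c (2 * R)) := by
  classical
  let E := edgesP b c (2 * R)
  let π1 : ℤ × ℤ × ℤ × ℤ → (_ : ℕ) × ℕ := fun e => ⟨e.1.toNat, e.2.1.toNat⟩
  let π2 : ℤ × ℤ × ℤ × ℤ → (_ : ℕ) × ℕ := fun e => ⟨(e.1 - e.2.2.1).toNat, (e.2.1 - e.2.2.2).toNat⟩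
  have hsub : prims R ⊆ E.image π1 ∪ E.image π2 := by
    rintro ⟨x, y⟩ hxy
    simp only [prims, mem_sigma, mem_Icc, mem_filter, mem_range] at hxy
    obtain ⟨⟨hx2, hxR⟩, hyx, hcop⟩ := hxy
    have hcop' : IsCoprime (x : ℤ) (y : ℤ) := Nat.isCoprime_iff_coprime.mpr hcop
    obtain ⟨z, w, hz1, hzx, hw0, hwx, hdet⟩ := exists_mate (x := (x : ℤ)) (y := (y : ℤ))
      (by exact_mod_cast hx2) (by positivity) (by exact_mod_cast hyx.le) hcop'
    have hxR' : (x : ℤ) ≤ R := by exact_mod_cast hxR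
    have hyx' : (y : ℤ) < x := by exact_mod_cast hyx
    have hx2' : (2 : ℤ) ≤ x := by exact_mod_cast hx2
    have hy0' : (0 : ℤ) ≤ y := by positivity
    rw [mem_union, mem_image, mem_image]
    by_cases h1 : gs b c x y = gs b c z w
    · left
      refine ⟨(x, y, z, w), ?_, by simp [π1]⟩
      rw [mem_edgesP]
      push_cast
      exact ⟨⟨by omega, by omega⟩, ⟨by omega, by omega⟩, ⟨by omega, by omega⟩,
        ⟨by omega, by omega⟩, hdet, h1⟩
    · by_cases h2 : gs b c x y = gs b c (x + z) (y + w)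
      · left
        refine ⟨(x, y, x + z, y + w), ?_, by simp [π1]⟩
        rw [mem_edgesP]
        push_cast
        exact ⟨⟨by omega, by omega⟩, ⟨by omega, by omega⟩, ⟨by omega, by omega⟩,
          ⟨by omega, by omega⟩, by linarith, h2⟩
      · right
        refine ⟨(x + z, y + w, z, w), ?_, by simp [π2]⟩
        rw [mem_edgesP]
        push_cast
        refine ⟨⟨by omega, by omega⟩, ⟨by omega, by omega⟩, ⟨by omega, by omega⟩,
          ⟨by omega, by omega⟩, by linarith, ?_⟩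
        have c1 := gs_cases hb hc (show (0 : ℤ) < x by omega) hy0'
        have c2 := gs_cases hb hc (show (0 : ℤ) < z by omega) hw0
        have c3 := gs_cases hb hc (show (0 : ℤ) < x + z by omega) (show (0 : ℤ) ≤ y + w by omega)
        rcases c1 with c1 | c1 <;> rcases c2 with c2 | c2 <;> rcases c3 with c3 | c3 <;>
          rw [c1, c2] at h1 <;> rw [c1, c3] at h2 <;> rw [c2, c3] <;> first | rfl | exact absurd rfl h1 |
            exact absurd rfl h2
  calc #(prims R) ≤ #(E.image π1 ∪ E.image π2) := card_le_card hsub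
    _ ≤ #(E.image π1) + #(E.image π2) := card_union_le _ _
    _ ≤ #E + #E := add_le_add card_image_le card_image_le
    _ = 2 * #E := by ring

lemma totient_mul_card_divisors (n : ℕ) (hn : n ≠ 0) : n ≤ #n.divisors * Nat.totient n := by
  calc n = ∑ d ∈ n.divisors, Nat.totient d := (Nat.sum_totient n).symm
    _ ≤ ∑ _d ∈ n.divisors, Nat.totient n := by
        apply Finset.sum_le_sum
        intro d hd
        apply Nat.le_of_dvd (Nat.totient_pos.mpr (Nat.pos_of_ne_zero hn))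
        exact Nat.totient_dvd_of_dvd (Nat.dvd_of_mem_divisors hd)
    _ = _ := by rw [Finset.sum_const, smul_eq_mul]

lemma prims_card_ge {η : ℝ} (hη : 0 < η) :
    ∃ C : ℝ, 1 ≤ C ∧ ∀ R : ℕ, 2 ≤ R → (R : ℝ) ^ 2 ≤ C * (R : ℝ) ^ η * #(prims R) := by
  obtain ⟨C, hC1, hC⟩ := divisors_le_rpow η hη
  refine ⟨4 * C, by linarith, ?_⟩
  intro R hR
  have hRR : (2 : ℝ) ≤ R := by exact_mod_cast hR
  have hcard : (#(prims R) : ℝ) = ∑ x ∈ Icc 2 R, (Nat.totient x : ℝ) := by
    rw [prims, card_sigma]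
    push_cast
    apply Finset.sum_congr rfl
    intro x _
    rw [Nat.totient_eq_card_coprime]
  have h1 : ∀ x ∈ Icc 2 R, (x : ℝ) ≤ C * (R : ℝ) ^ η * Nat.totient x := by
    intro x hx
    rw [mem_Icc] at hx
    have hx0 : x ≠ 0 := by omega
    have h2 : (x : ℝ) ≤ #x.divisors * Nat.totient x := by
      exact_mod_cast totient_mul_card_divisors x hx0
    have h3 : (#x.divisors : ℝ) ≤ C * (R : ℝ) ^ η := by
      refine (hC x hx0).trans ?_
      have : (x : ℝ) ≤ R := by exact_mod_cast hx.2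
      gcongr
    exact h2.trans (by gcongr)
  have h2 := Finset.sum_le_sum h1
  rw [← Finset.mul_sum, ← hcard] at h2
  have h3 : (R : ℝ) ^ 2 / 4 ≤ ∑ x ∈ Icc 2 R, (x : ℝ) := by
    clear h2 hcard h1
    induction R, hR using Nat.le_induction with
    | base => norm_num
    | succ n hn ih =>
      have hn' : (2 : ℝ) ≤ n := by exact_mod_cast hn
      rw [← Finset.insert_Icc_right_eq_Icc_add_one (by omega), Finset.sum_insert (by simp)]
      have := ih hn'
      push_cast
      nlinarith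
  linarith

end Pool.Agent.H96Chowla
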