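import Mathlib
import Pool.Agent.Lib_helper96.Chowla.Plus

set_option autoImplicit false

namespace Pool.Agent.H96Chowla

open Finset Filter Topology

theorem plus_many {b c : ℤ} (hb : 0 ≤ b) (hc : 2 ≤ c) {ε : ℝ} (hε : 0 < ε) :
    ∀ᶠ N : ℕ in atTop, (N : ℝ) ^ (1 - ε) ≤ #(signSet b c 1 N) := by
  have hbR : (0 : ℝ) ≤ b := by exact_mod_cast hb
  have hcR : (2 : ℝ) ≤ c := by exact_mod_cast hc
  obtain ⟨C1, hC1, hdiv⟩ := div_values hb hc (η := ε / 8) (by positivity)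
  obtain ⟨C2, hC2, hprim⟩ := prims_card_ge (η := ε / 8) (by positivity)
  set κ : ℝ := 1 + b + c with hκ
  have hκ3 : 3 ≤ κ := by rw [hκ]; linarith
  set κn : ℕ := (1 + b + c).toNat with hκn
  have hκnz : (κn : ℤ) = 1 + b + c := Int.toNat_of_nonneg (by linarith)
  have hκnR : (κn : ℝ) = κ := by
    have : ((κn : ℤ) : ℝ) = ((1 + b + c : ℤ) : ℝ) := by rw [hκnz]
    push_cast at this
    exact this
  have hκnpos : 0 < κn := by omega
  have htend : Tendsto (fun N : ℕ => (N : ℝ) ^ (ε / 8)) atTop atTop :=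
    (tendsto_rpow_atTop (by positivity)).comp tendsto_natCast_atTop_atTop
  filter_upwards [htend.eventually_ge_atTop (32 * κ * C1 * C2 + 1),
    eventually_ge_atTop (36 * κn)] with N hN hN1
  have hN1' : 1 ≤ N := by omega
  have hN1R : (1 : ℝ) ≤ N := by exact_mod_cast hN1'
  have hN0 : (0 : ℝ) < N := by linarith
  set u : ℝ := (N : ℝ) ^ (ε / 8) with hu
  have hA : 0 ≤ 32 * κ * C1 * C2 := by positivity
  have hu1 : 1 ≤ u := by linarith
  have hupos : 0 < u := by linarith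
  have hu8 : u ^ 8 = (N : ℝ) ^ ε := by
    rw [hu, ← Real.rpow_natCast, ← Real.rpow_mul hN0.le]
    congr 1
    push_cast; ring
  have h4 : (N : ℝ) ^ (1 - ε) = N / u ^ 8 := by
    rw [hu8, Real.rpow_sub hN0, Real.rpow_one]
  set R : ℕ := Nat.sqrt (N / (4 * κn)) with hR
  have hRsq : 4 * κn * R ^ 2 ≤ N := by
    have h1 : R ^ 2 ≤ N / (4 * κn) := Nat.sqrt_le' _
    calc 4 * κn * R ^ 2 ≤ 4 * κn * (N / (4 * κn)) := by gcongr
      _ ≤ N := Nat.mul_div_le _ _
  have hR1 : (1 + b + c) * ((2 * R : ℕ) : ℤ) ^ 2 ≤ N := by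
    rw [← hκnz]
    have : κn * (2 * R) ^ 2 ≤ N := by
      calc κn * (2 * R) ^ 2 = 4 * κn * R ^ 2 := by ring
        _ ≤ N := hRsq
    exact_mod_cast this
  have hR3 : 3 ≤ R := by
    rw [hR, Nat.le_sqrt, Nat.le_div_iff_mul_le (by omega)]
    omega
  have hR2 : (N : ℝ) < 4 * κ * ((R : ℝ) + 1) ^ 2 := by
    have h1 : N / (4 * κn) < (R + 1) ^ 2 := Nat.lt_succ_sqrt' _
    have h2 : N < 4 * κn * (R + 1) ^ 2 := by
      rw [mul_comm]
      exact (Nat.div_lt_iff_lt_mul (by omega)).mp h1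
    have h3 : (N : ℝ) < 4 * κn * ((R : ℝ) + 1) ^ 2 := by exact_mod_cast h2
    rwa [hκnR] at h3
  have hR3R : (3 : ℝ) ≤ R := by exact_mod_cast hR3
  have hR4 : (N : ℝ) ≤ 16 * κ * (R : ℝ) ^ 2 := by
    have h5 : ((R : ℝ) + 1) ^ 2 ≤ (2 * R) ^ 2 := by
      gcongr
      linarith
    calc (N : ℝ) ≤ 4 * κ * ((R : ℝ) + 1) ^ 2 := hR2.le
      _ ≤ 4 * κ * (2 * R) ^ 2 := by gcongr
      _ = _ := by ring
  have hRN : (R : ℝ) ≤ N := by
    have : R ≤ N := by
      calc R ≤ N / (4 * κn) := Nat.sqrt_le_self _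
        _ ≤ N := Nat.div_le_self _ _
    exact_mod_cast this
  have hRu : (R : ℝ) ^ (ε / 8) ≤ u := by
    rw [hu]
    exact Real.rpow_le_rpow (by positivity) hRN (by positivity)
  have hp := hprim R (by omega)
  have hE := prims_card_le hb hc R
  have hE' := card_edgesP_le hb hc hR1
  have hsum : (∑ n ∈ signSet b c 1 N, (#(((n : ℤ) ^ 2 + b * n + c).natAbs.divisors) : ℝ)) ≤
      #(signSet b c 1 N) * (C1 * u ^ 2) := by
    rw [← nsmul_eq_mul, ← Finset.sum_const]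
    apply Finset.sum_le_sum
    intro n hn
    rw [signSet, mem_filter, mem_Icc] at hn
    exact hdiv N n hn.1.1 hn.1.2
  have hE2 : (#(prims R) : ℝ) ≤ 2 * (#(signSet b c 1 N) * (C1 * u ^ 2)) := by
    have h1 : (#(prims R) : ℝ) ≤ 2 * #(edgesP b c (2 * R)) := by exact_mod_cast hE
    have h2 : (#(edgesP b c (2 * R)) : ℝ) ≤ ∑ n ∈ signSet b c 1 N,
        (#(((n : ℤ) ^ 2 + b * n + c).natAbs.divisors) : ℝ) := by exact_mod_cast hE'
    linarith
  rw [h4, div_le_iff₀ (by positivity)]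
  set S : ℝ := (#(signSet b c 1 N) : ℝ) with hS
  have hS0 : 0 ≤ S := by positivity
  calc (N : ℝ) ≤ 16 * κ * (R : ℝ) ^ 2 := hR4
    _ ≤ 16 * κ * (C2 * (R : ℝ) ^ (ε / 8) * #(prims R)) := by gcongr
    _ ≤ 16 * κ * (C2 * u * (2 * (S * (C1 * u ^ 2)))) := by gcongr
    _ = (32 * κ * C1 * C2) * (S * u ^ 3) := by ring
    _ ≤ u * (S * u ^ 3) := by gcongr; linarith
    _ = S * u ^ 4 := by ring
    _ ≤ S * u ^ 8 := by gcongr; norm_num

/-- Both signs are taken often, for an arbitrary monic quadratic of nonzero discriminant. -/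
theorem both_many (b c : ℤ) (hD : b ^ 2 - 4 * c ≠ 0) {ε : ℝ} (hε : 0 < ε) :
    ∀ᶠ N : ℕ in atTop, (N : ℝ) ^ (1 - ε) ≤ #(signSet b c 1 N) ∧
      (N : ℝ) ^ (1 - ε) ≤ #(signSet b c (-1) N) := by
  -- shift
  obtain ⟨k, hk1, hk2⟩ : ∃ k : ℕ, 0 ≤ b + 2 * k ∧ 2 ≤ (k : ℤ) ^ 2 + b * k + c := by
    refine ⟨b.natAbs + c.natAbs + 2, ?_, ?_⟩
    · push_cast
      have := neg_abs_le b
      have := abs_nonneg c
      have := abs_nonneg b
      linarith
    · push_cast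
      have h1 := neg_abs_le b
      have h2 := neg_abs_le c
      have h3 := abs_nonneg b
      have h4 := abs_nonneg c
      nlinarith [mul_nonneg h3 h4, mul_nonneg h3 h3, mul_nonneg h4 h4]
  set b' : ℤ := b + 2 * k with hb'
  set c' : ℤ := (k : ℤ) ^ 2 + b * k + c with hc'
  have hD' : b' ^ 2 - 4 * c' ≠ 0 := by
    have : b' ^ 2 - 4 * c' = b ^ 2 - 4 * c := by rw [hb', hc']; ring
    rw [this]; exact hD
  -- transfer of counts
  have htrans : ∀ (s : ℤ) (M : ℕ), #(signSet b' c' s M) ≤ #(signSet b c s (M + k)) := by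
    intro s M
    apply card_le_card_of_injOn (fun n => n + k)
    · intro n hn
      rw [mem_coe, signSet, mem_filter, mem_Icc] at hn
      rw [mem_coe, signSet, mem_filter, mem_Icc]
      refine ⟨⟨by simp only; omega, by simp only; omega⟩, ?_⟩
      rw [← hn.2]
      congr 1
      rw [hb', hc']; push_cast; ring
    · intro n _ n' _ h
      simpa using h
  set ε' : ℝ := min ε 1 / 2 with hε'
  have hmin : 0 < min ε 1 := lt_min hε one_pos
  have hε'0 : 0 < ε' := by rw [hε']; positivity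
  have hε'1 : ε' ≤ 1 := by rw [hε']; have := min_le_right ε 1; linarith
  have hε'ε : 2 * ε' ≤ ε := by rw [hε']; have := min_le_left ε 1; linarith
  have h1 := minus_many hk1 hk2 hD' hε'0 hε'1
  have h2 := plus_many hk1 hk2 hε'0
  have htend : Tendsto (fun N : ℕ => (N : ℝ) ^ ε') atTop atTop :=
    (tendsto_rpow_atTop hε'0).comp tendsto_natCast_atTop_atTop
  have hsub : Tendsto (fun N : ℕ => N - k) atTop atTop := tendsto_sub_atTop_nat k
  filter_upwards [hsub.eventually h1, hsub.eventually h2, htend.eventually_ge_atTop 2,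
    eventually_ge_atTop (2 * k + 1)] with N hN1 hN2 hN3 hN4
  have hNk : N - k + k = N := by omega
  have hN0 : (0 : ℝ) < N := by
    have : 0 < N := by omega
    exact_mod_cast this
  have hN1R : (1 : ℝ) ≤ N := by
    have : 1 ≤ N := by omega
    exact_mod_cast this
  have hhalf : (N : ℝ) / 2 ≤ ((N - k : ℕ) : ℝ) := by
    have h5 : N ≤ 2 * (N - k) := by omega
    have h6 : (N : ℝ) ≤ 2 * ((N - k : ℕ) : ℝ) := by exact_mod_cast h5
    linarith
  have hkey : (N : ℝ) ^ (1 - ε) ≤ ((N - k : ℕ) : ℝ) ^ (1 - ε') := by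
    calc (N : ℝ) ^ (1 - ε) ≤ (N : ℝ) ^ (1 - ε' - ε') :=
          Real.rpow_le_rpow_of_exponent_le hN1R (by linarith)
      _ = (N : ℝ) ^ (1 - ε') / (N : ℝ) ^ ε' := by rw [Real.rpow_sub hN0]
      _ ≤ (N : ℝ) ^ (1 - ε') / 2 := by gcongr
      _ ≤ (N : ℝ) ^ (1 - ε') / (2 : ℝ) ^ (1 - ε') := by
          gcongr
          calc (2 : ℝ) ^ (1 - ε') ≤ (2 : ℝ) ^ (1 : ℝ) :=
                Real.rpow_le_rpow_of_exponent_le (by norm_num) (by linarith)
            _ = 2 := Real.rpow_one 2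
      _ = ((N : ℝ) / 2) ^ (1 - ε') := by rw [Real.div_rpow hN0.le (by norm_num)]
      _ ≤ _ := Real.rpow_le_rpow (by positivity) hhalf (by linarith)
  have t1 := htrans 1 (N - k)
  have t2 := htrans (-1) (N - k)
  rw [hNk] at t1 t2
  constructor
  · calc (N : ℝ) ^ (1 - ε) ≤ ((N - k : ℕ) : ℝ) ^ (1 - ε') := hkey
      _ ≤ #(signSet b' c' 1 (N - k)) := hN2
      _ ≤ _ := by exact_mod_cast t1
  · calc (N : ℝ) ^ (1 - ε) ≤ ((N - k : ℕ) : ℝ) ^ (1 - ε') := hkey
      _ ≤ #(signSet b' c' (-1) (N - k)) := hN1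
      _ ≤ _ := by exact_mod_cast t2

end Pool.Agent.H96Chowla
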